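import Pool.Agent.Lib.MP_9a7843_ag_B.Base

/-!
# MP_9a7843_ag, block V, module Diff: Kaehler differentials of fields, jacobians
-/

noncomputable section

open Classical KaehlerDifferential

open scoped KaehlerDifferential

namespace MP9a7843

universe u

section

variable {k : Type u} [Field k] {K : Type u} [Field K] [Algebra k K] {σ : Type} [Fintype σ]

/-- `B` is the basis `(d x_s)` of the differentials of `K / k`. -/
def IsDB (B : Module.Basis σ K (Ω[K⁄k])) (x : σ → K) : Prop := ∀ s, B s = D k K (x s)

/-- If `x` is a (finite) transcendence basis of `K / k` and the characteristic is zero, the `d x_s`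
are a basis of `Ω[K/k]`.

Proof: `S = MvPolynomial σ k → K`, `X_s ↦ x_s`, makes `K` a formally etale `S`-algebra: the field of
fractions `E` of `S` (`= k(x)`) is a localisation of `S` (`Algebra.FormallyEtale.of_isLocalization`)
and `K / E` is algebraic, hence separable (`CharZero`), so formally etale
(`Algebra.FormallyEtale.of_isSeparable`), `Algebra.FormallyEtale.comp`.  Hence
`tensorKaehlerEquivOfFormallyEtale k S K : K ⊗[S] Ω[S/k] ≃ Ω[K/k]`, and `Ω[S/k]` has the basis
`mvPolynomialBasis k σ`; take its base change. -/
theorem exists_isDB [CharZero k] (x : σ → K) (hx : AlgebraicIndependent k x)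
    (h : Algebra.IsAlgebraic (IntermediateField.adjoin k (Set.range x)) K) :
    ∃ B : Module.Basis σ K (Ω[K⁄k]), IsDB B x := by
  let i1 : Algebra (MvPolynomial σ k) K := (MvPolynomial.aeval x).toRingHom.toAlgebra
  have i2 : IsScalarTower k (MvPolynomial σ k) K :=
    IsScalarTower.of_algebraMap_eq fun c => by
      change algebraMap k K c = MvPolynomial.aeval x (MvPolynomial.C c)
      rw [MvPolynomial.aeval_C]
  let i3 : Algebra (MvPolynomial σ k) (IntermediateField.adjoin k (Set.range x)) :=
    (hx.aevalEquivField.toRingEquiv.toRingHom.comp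
      (algebraMap (MvPolynomial σ k) (FractionRing (MvPolynomial σ k)))).toAlgebra
  have i4 : IsScalarTower (MvPolynomial σ k) (IntermediateField.adjoin k (Set.range x)) K :=
    IsScalarTower.of_algebraMap_eq fun c => by
      change MvPolynomial.aeval x c = ((hx.aevalEquivField
        (algebraMap (MvPolynomial σ k) (FractionRing (MvPolynomial σ k)) c) :
        IntermediateField.adjoin k (Set.range x)) : K)
      rw [AlgebraicIndependent.aevalEquivField_algebraMap_apply_coe]
  have i5 : IsLocalization (nonZeroDivisors (MvPolynomial σ k))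
      (IntermediateField.adjoin k (Set.range x)) := by
    let e : FractionRing (MvPolynomial σ k) ≃ₐ[MvPolynomial σ k]
        (IntermediateField.adjoin k (Set.range x)) :=
      AlgEquiv.ofRingEquiv (f := hx.aevalEquivField.toRingEquiv) fun _ => rfl
    exact IsLocalization.isLocalization_of_algEquiv _ e
  have i6 : Algebra.FormallyEtale (MvPolynomial σ k)
      (IntermediateField.adjoin k (Set.range x)) :=
    Algebra.FormallyEtale.of_isLocalization (nonZeroDivisors (MvPolynomial σ k))
  have i7 : Algebra.FormallyEtale (IntermediateField.adjoin k (Set.range x)) K := by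
    have := h
    exact Algebra.FormallyEtale.of_isSeparable _ _
  have i8 : Algebra.FormallyEtale (MvPolynomial σ k) K :=
    Algebra.FormallyEtale.comp (MvPolynomial σ k) (IntermediateField.adjoin k (Set.range x)) K
  refine ⟨((mvPolynomialBasis k σ).baseChange K).map
    (tensorKaehlerEquivOfFormallyEtale k (MvPolynomial σ k) K), fun s => ?_⟩
  rw [Module.Basis.map_apply, Module.Basis.baseChange_apply, mvPolynomialBasis_apply,
    tensorKaehlerEquivOfFormallyEtale_apply, mapBaseChange_tmul, one_smul, map_D]
  congr 1
  change MvPolynomial.aeval x (MvPolynomial.X s) = x s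
  rw [MvPolynomial.aeval_X]

/-- The partial derivative `∂ / ∂ x_s`. -/
def pder (B : Module.Basis σ K (Ω[K⁄k])) (s : σ) : Derivation k K K :=
  (B.coord s).compDer (D k K)

variable {B B' : Module.Basis σ K (Ω[K⁄k])} {x : σ → K}

theorem pder_apply (s : σ) (a : K) : pder B s a = B.repr (D k K a) s := rfl

theorem pder_x (h : IsDB B x) (s t : σ) : pder B s (x t) = if t = s then 1 else 0 := by
  rw [pder_apply, ← h t, B.repr_self, Finsupp.single_apply]

theorem D_eq_sum (B : Module.Basis σ K (Ω[K⁄k])) (a : K) :
    D k K a = ∑ s, pder B s a • B s := (B.sum_repr (D k K a)).symm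

/-- `δ a = ∑ (∂a/∂x_s) δ x_s` for every derivation (`δ` is a linear form on `Ω` composed with `d`:
`Derivation.liftKaehlerDifferential`). -/
theorem der_eq_sum (h : IsDB B x) (δ : Derivation k K K) (a : K) :
    δ a = ∑ s, pder B s a * δ (x s) := by
  have h1 : δ a = δ.liftKaehlerDifferential (D k K a) :=
    (Derivation.liftKaehlerDifferential_comp_D δ a).symm
  rw [h1, D_eq_sum B a, map_sum]
  refine Finset.sum_congr rfl fun s _ => ?_
  rw [map_smul, h s, Derivation.liftKaehlerDifferential_comp_D, smul_eq_mul]

/-- The partial derivatives preserve `A` if `A` is etale over `k[x]`. -/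
theorem pder_mem (h : IsDB B x) {A : ValuationSubring K} (hA : EtaleAt k A x) (s : σ) {a : K}
    (ha : a ∈ A) : pder B s a ∈ A := by
  refine hA.2 (pder B s) (fun t => ?_) a ha
  rw [pder_x h]
  split_ifs
  · exact one_mem _
  · exact zero_mem _

/-- The jacobian determinant of `a` with respect to the basis `B` of the differentials. -/
def jac (B : Module.Basis σ K (Ω[K⁄k])) (a : σ → K) : K := B.det fun s => D k K (a s)

theorem jac_self (h : IsDB B x) : jac B x = 1 := by
  unfold jac
  have : (fun s => D k K (x s)) = B := by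
    ext s
    rw [← h s]
  rw [this, B.det_self]

omit [Algebra k K] [Field k] in
private theorem Diff_det_mem (R : Subring K) (M : Matrix σ σ K) (h : ∀ i j, M i j ∈ R) :
    M.det ∈ R := by
  have h1 : M = R.subtype.mapMatrix (Matrix.of fun i j => (⟨M i j, h i j⟩ : R)) := by
    ext i j
    rfl
  rw [h1, ← RingHom.map_det]
  exact Subtype.property _

private theorem Diff_jac (B : Module.Basis σ K (Ω[K⁄k])) (a : σ → K) :
    jac B a = (Matrix.of fun s t => pder B s (a t)).det := rfl

/-- The matrix of `d a_t` has the entries `∂ a_t / ∂ x_s ∈ A`; determinant = sum of products. -/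
theorem jac_mem (h : IsDB B x) {A : ValuationSubring K} (hA : EtaleAt k A x) {a : σ → K}
    (ha : ∀ s, a s ∈ A) : jac B a ∈ A := by
  rw [Diff_jac]
  exact Diff_det_mem A.toSubring _ fun i j => pder_mem h hA i (ha j)

/-- Same for a subring `R` that is preserved by the partial derivatives. -/
theorem jac_mem_subring (B : Module.Basis σ K (Ω[K⁄k])) (R : Subalgebra k K) {a : σ → K}
    (hR : ∀ s t, pder B s (a t) ∈ R) : jac B a ∈ R := by
  rw [Diff_jac]
  exact Diff_det_mem R.toSubring _ fun i j => hR i j

/-- Change of the basis (`Module.Basis.det_comp_basis` or: two alternating maps of maximal degree). -/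
theorem jac_change (B B' : Module.Basis σ K (Ω[K⁄k])) (h : IsDB B' x) (a : σ → K) :
    jac B a = jac B x * jac B' a := by
  have hx : (fun s => D k K (x s)) = B' := by
    ext s
    rw [← h s]
  unfold jac
  rw [hx, Module.Basis.det_apply, Module.Basis.det_apply, Module.Basis.det_apply,
    ← Matrix.det_mul, Module.Basis.toMatrix_mul_toMatrix]

/-- `dx_1 ∧ … ∧ da ∧ … ∧ dx_n = (∂a/∂x_s) dx_1 ∧ … ∧ dx_n` (`da = ∑ ∂_t a dx_t`, multilinear,
alternating). -/
theorem jac_update (B B' : Module.Basis σ K (Ω[K⁄k])) (h : IsDB B' x) (s : σ) (a : K) :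
    jac B (Function.update x s a) = jac B x * pder B' s a := by
  rw [jac_change B B' h]
  congr 1
  have hx : (fun t => D k K (Function.update x s a t)) = Function.update B' s (D k K a) := by
    ext t
    by_cases ht : t = s
    · subst ht
      rw [Function.update_self, Function.update_self]
    · rw [Function.update_of_ne ht, Function.update_of_ne ht, h t]
  unfold jac
  rw [hx, Module.Basis.det_apply, Module.Basis.toMatrix_update, Module.Basis.toMatrix_self,
    ← Matrix.cramer_apply, Matrix.cramer_one]
  rfl

/-- If the `d x_s` are a basis then the jacobian of `x` is not zero. -/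
theorem jac_ne_zero (B B' : Module.Basis σ K (Ω[K⁄k])) (h : IsDB B' x) : jac B x ≠ 0 := by
  have hx : (fun s => D k K (x s)) = B' := by
    ext s
    rw [← h s]
  unfold jac
  rw [hx]
  exact (B.isUnit_det B').ne_zero

/-- Conversely: if the jacobian of `x` is not zero then the `d x_s` are a basis. -/
theorem exists_isDB_of_jac (B : Module.Basis σ K (Ω[K⁄k])) (x : σ → K) (h : jac B x ≠ 0) :
    ∃ B' : Module.Basis σ K (Ω[K⁄k]), IsDB B' x := by
  have h1 := (Module.Basis.is_basis_iff_det B).2 (isUnit_iff_ne_zero.2 h)
  exact ⟨Module.Basis.mk h1.1 h1.2.ge, fun s => Module.Basis.mk_apply _ _ s⟩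

end

section

variable {k : Type u} [Field k] {K L : Type u} [Field K] [Algebra k K] [Field L] [Algebra k L]
  {σ : Type} [Fintype σ]

/-- Derivatives are compatible with an embedding `i` of fields: `d a = ∑ ∂_s a dx_s` in `Ω[K/k]`
is mapped to `d (i a) = ∑ i(∂_s a) d(i x_s)` (`KaehlerDifferential.map`, or lift of the derivation
`a ↦ d (i a)` from `K` to `Ω[L/k]`). -/
theorem pder_map (i : K →ₐ[k] L) {B : Module.Basis σ K (Ω[K⁄k])} {B' : Module.Basis σ L (Ω[L⁄k])}
    {x : σ → K} (h : IsDB B x) (h' : IsDB B' (i ∘ x)) (s : σ) (a : K) :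
    pder B' s (i a) = i (pder B s a) := by
  let : Algebra K L := i.toRingHom.toAlgebra
  have : IsScalarTower k K L := IsScalarTower.of_algebraMap_eq fun c => (i.commutes c).symm
  have h1 : D k L (i a) = ∑ s, i (pder B s a) • B' s := by
    have h2 : D k L (i a) = KaehlerDifferential.map k k K L (D k K a) :=
      (KaehlerDifferential.map_D k k K L a).symm
    rw [h2, D_eq_sum B a, map_sum]
    refine Finset.sum_congr rfl fun s _ => ?_
    rw [map_smul, h s, KaehlerDifferential.map_D, h' s]
    rfl
  rw [pder_apply, h1, B'.repr_sum_self]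

theorem jac_map (i : K →ₐ[k] L) {B : Module.Basis σ K (Ω[K⁄k])} {B' : Module.Basis σ L (Ω[L⁄k])}
    {x : σ → K} (h : IsDB B x) (h' : IsDB B' (i ∘ x)) (a : σ → K) :
    jac B' (i ∘ a) = i (jac B a) := by
  have h1 : jac B' (i ∘ a) = (Matrix.of fun s t => pder B' s (i (a t))).det := rfl
  have h2 : jac B a = (Matrix.of fun s t => pder B s (a t)).det := rfl
  rw [h1, h2, AlgHom.map_det]
  congr 1
  ext s t
  exact pder_map i h h' s (a t)

end

end MP9a7843
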