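import Pool.Agent.Lib.MP_9a7843_ag_X.Cells
import Pool.Agent.Lib.MP_9a7843_ag_V.Diff

/-!
# MP_9a7843_ag, block V, module Change: change of cells for etale valuation rings
-/

noncomputable section

open MvPolynomial

namespace MP9a7843

universe u

section

variable {k : Type u} [Field k] {K : Type u} [Field K] [Algebra k K] {τ : Type}

theorem chg_aeval_mem {A : ValuationSubring K} (hA : ∀ r : k, algebraMap k K r ∈ A) {x : τ → K}
    (hx : ∀ t, x t ∈ A) (P : MvPolynomial τ k) : aeval x P ∈ A := by
  induction P using MvPolynomial.induction_on with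
  | C r => simpa using hA r
  | add p q hp hq => rw [map_add]; exact add_mem hp hq
  | mul_X p t hp => rw [map_mul, aeval_X]; exact mul_mem hp (hx t)

theorem chg_der_aeval {A : ValuationSubring K} (hA : ∀ r : k, algebraMap k K r ∈ A) {x : τ → K}
    (hx : ∀ t, x t ∈ A) (δ : Derivation k K K) (hδ : ∀ t, δ (x t) ∈ A) (P : MvPolynomial τ k) :
    δ (aeval x P) ∈ A := by
  induction P using MvPolynomial.induction_on with
  | C r => simp
  | add p q hp hq => rw [map_add, map_add]; exact add_mem hp hq
  | mul_X p t hp =>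
    rw [map_mul, aeval_X, Derivation.leibniz, smul_eq_mul, smul_eq_mul]
    exact add_mem (mul_mem (chg_aeval_mem hA hx p) (hδ t)) (mul_mem (hx t) hp)

theorem chg_der_div {A : ValuationSubring K} {δ : Derivation k K K} {a b : K} (ha : a ∈ A)
    (hb : b ∈ A) (hb' : b⁻¹ ∈ A) (hda : δ a ∈ A) (hdb : δ b ∈ A) : δ (a / b) ∈ A := by
  by_cases h0 : b = 0
  · rw [h0, div_zero, map_zero]; exact zero_mem _
  · have h1 : δ (a / b) = (δ a - a / b * δ b) * b⁻¹ := by
      have h2 : δ (a / b * b) = δ a := by rw [div_mul_cancel₀ _ h0]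
      rw [Derivation.leibniz, smul_eq_mul, smul_eq_mul] at h2
      rw [← h2]
      field_simp
      ring
    rw [h1]
    refine mul_mem (sub_mem hda (mul_mem ?_ hdb)) hb'
    rw [div_eq_mul_inv]
    exact mul_mem ha hb'

variable {z : Idx → K}

/-- An etale valuation ring is etale for every cell whose coordinates it contains. -/
theorem etaleAt_change {A : ValuationSubring K} (hA : ∀ r : k, algebraMap k K r ∈ A)
    (h : Rel z) {i j : Fin 10} {m : Fin 4} (hc : z (cellIdx i j m) ≠ 0)
    (hE : EtaleAt k A (cellCoord z i j m)) {i' j' : Fin 10} {m' : Fin 4}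
    (hc' : z (cellIdx i' j' m') ≠ 0) (hx : ∀ s, cellCoord z i' j' m' s ∈ A) :
    EtaleAt k A (cellCoord z i' j' m') := by
  refine ⟨hx, fun δ hδ => hE.2 δ fun s => ?_⟩
  rw [cellCoord_trans k h hc' s]
  refine chg_der_div (chg_aeval_mem hA hx _) (chg_aeval_mem hA hx _) ?_
    (chg_der_aeval hA hx δ hδ _) (chg_der_aeval hA hx δ hδ _)
  rw [aeval_zC k h hc', inv_div, ← aeval_zC k h hc]
  exact chg_aeval_mem hA hE.1 _

theorem cellCoord_smul {r : K} (hr : r ≠ 0) (z : Idx → K) (i j : Fin 10) (m : Fin 4) :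
    cellCoord (r • z) i j m = cellCoord z i j m := by
  funext s
  rw [cellCoord_eq, cellCoord_eq]
  simp only [Pi.smul_apply, smul_eq_mul]
  exact mul_div_mul_left _ _ hr

end

theorem cellCoord_map {K L : Type*} [Field K] [Field L] (f : K →+* L) (z : Idx → K)
    (i j : Fin 10) (m : Fin 4) (s : CellVar i j m) :
    cellCoord (fun I => f (z I)) i j m s = f (cellCoord z i j m s) := by
  rw [cellCoord_eq, cellCoord_eq, map_div₀]

end MP9a7843
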