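import Pool.Agent.Lib.MP_9a7843_ag_V.Diff
import Pool.Agent.Lib.MP_9a7843_ag.Div

/-!
# MP_9a7843_ag, block V, module Canon: canonical divisors in terms of jacobians
-/

noncomputable section

open Classical KaehlerDifferential

open scoped KaehlerDifferential

namespace MP9a7843

open Pool.Agent.MP9a7843 Pool.Agent.MP9a7843.ProjVar

universe u

variable {k : Type u} [Field k] {Y : ProjVar k}

/-- The `loc y`-module spanned by the jacobians of functions that are regular at `y`. -/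
def jacMod (B : Module.Basis (Fin Y.dim) Y.K (Ω[Y.K⁄k])) (y : Y.ι → k) :
    Submodule (Y.loc y) Y.K :=
  Submodule.span (Y.loc y)
    (Set.range fun a : Fin Y.dim → Y.loc y => jac B fun i => (a i : Y.K))

private theorem Canon_det (B : Module.Basis (Fin Y.dim) Y.K (Ω[Y.K⁄k])) (a : Fin Y.dim → Y.K) :
    Y.wedge (pder B) a = jac B a := by
  unfold jac
  rw [← Subsingleton.elim (instDecidableEqFin Y.dim) fun a b => Classical.propDecidable (a = b)]
  rfl

/-- `d a_1 ∧ … ∧ d a_n = jac B a • (B_1 ∧ … ∧ B_n)`, as values on the vector fields `δ`. -/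
theorem wedge_eq (B : Module.Basis (Fin Y.dim) Y.K (Ω[Y.K⁄k]))
    (δ : Fin Y.dim → Derivation k Y.K Y.K) (a : Fin Y.dim → Y.K) :
    Y.wedge δ a =
      (Matrix.of fun i s => (δ i).liftKaehlerDifferential (B s)).det * jac B a := by
  rw [← Canon_det B a]
  unfold wedge
  rw [← Matrix.det_mul]
  congr 1
  ext i j
  rw [Matrix.mul_apply, Matrix.of_apply]
  have h1 : δ i (a j) = (δ i).liftKaehlerDifferential (D k Y.K (a j)) :=
    (Derivation.liftKaehlerDifferential_comp_D (δ i) (a j)).symm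
  rw [h1, D_eq_sum B (a j), map_sum]
  refine Finset.sum_congr rfl fun s _ => ?_
  rw [map_smul, smul_eq_mul, mul_comm]
  rfl

theorem regularForms_pder (B : Module.Basis (Fin Y.dim) Y.K (Ω[Y.K⁄k])) (y : Y.ι → k) :
    Y.regularForms (pder B) y = jacMod B y := by
  unfold regularForms jacMod
  congr 1
  ext b
  constructor
  · rintro ⟨a, ha, rfl⟩
    exact ⟨fun i => ⟨a i, ha i⟩, (Canon_det B a).symm⟩
  · rintro ⟨a, rfl⟩
    exact ⟨fun i => (a i : Y.K), fun i => (a i).2, (Canon_det B _).symm⟩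

/-- The regular forms are the multiples of the jacobians by the value of `B_1 ∧ … ∧ B_n` on `δ`. -/
theorem regularForms_eq_map (B : Module.Basis (Fin Y.dim) Y.K (Ω[Y.K⁄k]))
    (δ : Fin Y.dim → Derivation k Y.K Y.K) (y : Y.ι → k) :
    Y.regularForms δ y = (jacMod B y).map (LinearMap.mulLeft (Y.loc y)
      (Matrix.of fun i s => (δ i).liftKaehlerDifferential (B s)).det) := by
  unfold regularForms jacMod
  rw [Submodule.map_span]
  congr 1
  ext b
  constructor
  · rintro ⟨a, ha, rfl⟩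
    exact ⟨_, ⟨fun i => ⟨a i, ha i⟩, rfl⟩, (wedge_eq B δ a).symm⟩
  · rintro ⟨_, ⟨a, rfl⟩, rfl⟩
    exact ⟨fun i => (a i : Y.K), fun i => (a i).2, (wedge_eq B δ _).symm⟩

/-- A canonical divisor in terms of jacobians: `s` is the quotient of `ω` and
`B_1 ∧ … ∧ B_n`. -/
theorem exists_jacMod (B : Module.Basis (Fin Y.dim) Y.K (Ω[Y.K⁄k])) {D : Y.CaDiv}
    (hD : D.IsCanonical) : ∃ s : Y.K, s ≠ 0 ∧ ∀ y, Y.IsPt y →
      jacMod B y = Submodule.span (Y.loc y) {s / D.eq y} := by
  obtain ⟨δ, s, hs, h⟩ := hD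
  by_cases hne : ∃ y₀ : Y.ι → k, Y.IsPt y₀
  · obtain ⟨y₀, hy₀⟩ := hne
    have key := regularForms_eq_map B δ
    generalize (Matrix.of fun i s => (δ i).liftKaehlerDifferential (B s)).det = θ at key
    have hθ0 : θ ≠ 0 := by
      intro h0
      have h1 := key y₀
      rw [h0, h y₀ hy₀] at h1
      have h2 : s / D.eq y₀ ∈ Submodule.span (Y.loc y₀) {s / D.eq y₀} :=
        Submodule.mem_span_singleton_self _
      rw [h1] at h2
      obtain ⟨c, -, hc⟩ := h2
      have h3 : (0 : Y.K) * c = s / D.eq y₀ := hc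
      rw [zero_mul] at h3
      exact div_ne_zero hs (D.eq_ne_zero y₀ hy₀) h3.symm
    refine ⟨s / θ, div_ne_zero hs hθ0, fun y hy => ?_⟩
    have hinj : Function.Injective (LinearMap.mulLeft (Y.loc y) θ) := fun a b hab =>
      mul_left_cancel₀ hθ0 hab
    refine Submodule.map_injective_of_injective hinj ?_
    rw [← key y, h y hy, Submodule.map_span, Set.image_singleton]
    congr 2
    change s / D.eq y = θ * (s / θ / D.eq y)
    have := D.eq_ne_zero y hy
    field_simp
  · exact ⟨1, one_ne_zero, fun y hy => absurd ⟨y, hy⟩ hne⟩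

/-- Converse: `ω = s • (B_1 ∧ … ∧ B_n)`, with the dual vector fields `pder B`. -/
theorem isCanonical_of_jacMod (B : Module.Basis (Fin Y.dim) Y.K (Ω[Y.K⁄k])) {D : Y.CaDiv}
    {s : Y.K} (hs : s ≠ 0)
    (h : ∀ y, Y.IsPt y → jacMod B y = Submodule.span (Y.loc y) {s / D.eq y}) :
    D.IsCanonical :=
  ⟨pder B, s, hs, fun y hy => (regularForms_pder B y).trans (h y hy)⟩

/-- `jacMod` at a point with good coordinates `x`: every `jac B a` is `jac B x * jac B' a`
(`jac_change`), and `jac B' a ∈ loc y` (`jac_mem_subring`; `pder B' i` maps the `x_j` to `0` or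
`1`). -/
theorem jacMod_eq (B : Module.Basis (Fin Y.dim) Y.K (Ω[Y.K⁄k]))
    {B' : Module.Basis (Fin Y.dim) Y.K (Ω[Y.K⁄k])} {x : Fin Y.dim → Y.K} (h : IsDB B' x)
    {y : Y.ι → k} (hx : ∀ i, x i ∈ Y.loc y)
    (hst : ∀ δ : Derivation k Y.K Y.K, (∀ i, δ (x i) ∈ Y.loc y) → ∀ a ∈ Y.loc y, δ a ∈ Y.loc y) :
    jacMod B y = Submodule.span (Y.loc y) {jac B x} := by
  refine le_antisymm ?_ ?_
  · refine Submodule.span_le.2 ?_
    rintro _ ⟨a, rfl⟩
    have h1 : jac B' (fun i => (a i : Y.K)) ∈ Y.loc y := by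
      refine jac_mem_subring B' (Y.loc y) fun s t => ?_
      refine hst (pder B' s) (fun i => ?_) _ (a t).2
      rw [pder_x h]
      split_ifs
      · exact one_mem _
      · exact zero_mem _
    change jac B (fun i => (a i : Y.K)) ∈ Submodule.span (Y.loc y) {jac B x}
    rw [Submodule.mem_span_singleton]
    refine ⟨⟨_, h1⟩, ?_⟩
    rw [jac_change B B' h fun i => (a i : Y.K)]
    change jac B' (fun i => (a i : Y.K)) * jac B x = _
    rw [mul_comm]
  · rw [Submodule.span_le, Set.singleton_subset_iff]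
    exact Submodule.subset_span ⟨fun i => ⟨x i, hx i⟩, rfl⟩

/-- Two generators of the same cyclic submodule of `K` differ by a unit. -/
theorem unitAt_of_span_eq {y : Y.ι → k} {a b : Y.K} (ha : a ≠ 0) (hb : b ≠ 0)
    (h : Submodule.span (Y.loc y) {a} = Submodule.span (Y.loc y) {b}) :
    Y.UnitAt y (a / b) := by
  have key : ∀ {a b : Y.K}, b ≠ 0 → a ∈ Submodule.span (Y.loc y) {b} → a / b ∈ Y.loc y := by
    intro a b hb h
    obtain ⟨c, hc⟩ := Submodule.mem_span_singleton.1 h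
    have h1 : a = (c : Y.K) * b := hc.symm
    rw [h1, mul_div_cancel_right₀ _ hb]
    exact c.2
  refine ⟨key hb ?_, ?_⟩
  · rw [← h]
    exact Submodule.mem_span_singleton_self _
  · rw [inv_div]
    refine key ha ?_
    rw [h]
    exact Submodule.mem_span_singleton_self _

/-- A transcendence basis indexed by `Fin dim` (`trdeg_eq_dim`, `exists_isTranscendenceBasis'`),
and the basis of the differentials (`exists_isDB`). -/
theorem exists_basis_dim [CharZero k] (Y : ProjVar k) :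
    ∃ (x : Fin Y.dim → Y.K) (B : Module.Basis (Fin Y.dim) Y.K (Ω[Y.K⁄k])), IsDB B x ∧
      AlgebraicIndependent k x ∧
      Algebra.IsAlgebraic (IntermediateField.adjoin k (Set.range x)) Y.K := by
  obtain ⟨ι, x, hx⟩ := exists_isTranscendenceBasis' k Y.K
  have h1 := hx.lift_cardinalMk_eq_trdeg
  rw [trdeg_eq_dim] at h1
  have h2 : Cardinal.mk ι = (Y.dim : Cardinal) := by
    simpa using h1
  obtain ⟨e⟩ : Nonempty (Fin Y.dim ≃ ι) := by
    refine Cardinal.lift_mk_eq'.1 ?_
    rw [h2, Cardinal.mk_fin]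
    simp
  have h3 : IsTranscendenceBasis k (x ∘ e) := hx.comp_equiv e
  have h4 := h3.isAlgebraic_field
  obtain ⟨B, hB⟩ := exists_isDB (x ∘ e) h3.1 h4
  exact ⟨x ∘ e, B, hB, h3.1, h4⟩

/-- Canonical divisors are unique up to linear equivalence. -/
theorem IsCanonical_unique [CharZero k] {D E : Y.CaDiv} (hD : D.IsCanonical)
    (hE : E.IsCanonical) : ∃ φ : Y.K, φ ≠ 0 ∧ ∀ y : Y.ι → k, Y.IsPt y →
      Y.UnitAt y (D.eq y / (φ * E.eq y)) := by
  obtain ⟨x, B, -⟩ := exists_basis_dim Y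
  obtain ⟨s, hs, h1⟩ := exists_jacMod B hD
  obtain ⟨t, ht, h2⟩ := exists_jacMod B hE
  refine ⟨s / t, div_ne_zero hs ht, fun y hy => ?_⟩
  have hD0 := D.eq_ne_zero y hy
  have hE0 := E.eq_ne_zero y hy
  have h3 := unitAt_of_span_eq (div_ne_zero ht hE0) (div_ne_zero hs hD0)
    ((h2 y hy).symm.trans (h1 y hy))
  have h4 : t / E.eq y / (s / D.eq y) = D.eq y / (s / t * E.eq y) := by
    field_simp
  rw [← h4]
  exact h3

end MP9a7843
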