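import Pool.Agent.Lib.MP_9a7843_ag.Loc

/-!
# MP_9a7843_ag, block V, module Sharp: the comorphism of a dominant morphism
-/

noncomputable section

open MvPolynomial Classical

namespace Pool.Agent.MP9a7843

namespace ProjVar

universe u

variable {k : Type u} [Field k] {Y X : ProjVar k}

/-- The value of a form of degree `d` at a tuple divided by a scalar. -/
theorem aeval_div_form {ι : Type} {F : Type u} [Field F] [Algebra k F] {d : ℕ}
    {P : MvPolynomial ι k} (hP : P.IsHomogeneous d) (c : ι → F) (r : F) :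
    aeval (fun i => c i / r) P = aeval c P / r ^ d := by
  rw [aeval_def, aeval_def, eval₂_eq, eval₂_eq, Finset.sum_div]
  refine Finset.sum_congr rfl fun m hm => ?_
  have h1 : ∑ i ∈ m.support, m i = d := by
    have := hP (mem_support_iff.1 hm)
    simpa [Finsupp.weight_apply, Finsupp.sum] using this
  simp only [div_pow, Finset.prod_div_distrib]
  rw [Finset.prod_pow_eq_pow_sum, h1]
  ring

/-- `f` is defined at `c`. -/
def Hom.DefAt (f : Hom Y X) {F : Type u} [Field F] [Algebra k F] (c : Y.ι → F) : Prop :=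
  ∃ j, f.coord j ≠ 0 ∧ ∀ i, f.coord i / f.coord j ∈ Y.loc c

/-- The index used in `Hom.app`. -/
def Hom.idx (f : Hom Y X) {F : Type u} [Field F] [Algebra k F] (c : Y.ι → F) : X.ι :=
  Classical.epsilon fun j => f.coord j ≠ 0 ∧ ∀ i, f.coord i / f.coord j ∈ Y.loc c

section

variable (f : Hom Y X) {F : Type u} [Field F] [Algebra k F] {c : Y.ι → F}

theorem Hom.app_apply (i : X.ι) : f.app c i = Y.ev c (f.coord i / f.coord (f.idx c)) := rfl

variable {f}

theorem Hom.defAt_closed {y : Y.ι → k} (hy : Y.IsPt y) : f.DefAt y := f.regular y hy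

theorem Hom.DefAt.coord_ne (h : f.DefAt c) : f.coord (f.idx c) ≠ 0 :=
  (Classical.epsilon_spec (p := fun j => f.coord j ≠ 0 ∧
    ∀ i, f.coord i / f.coord j ∈ Y.loc c) h).1

theorem Hom.DefAt.div_mem (h : f.DefAt c) (i : X.ι) :
    f.coord i / f.coord (f.idx c) ∈ Y.loc c :=
  (Classical.epsilon_spec (p := fun j => f.coord j ≠ 0 ∧
    ∀ i, f.coord i / f.coord j ∈ Y.loc c) h).2 i

theorem Hom.DefAt.app_idx (hc : Y.IsPt c) (h : f.DefAt c) : f.app c (f.idx c) = 1 := by
  rw [Hom.app_apply, div_self h.coord_ne, ev_one hc]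

/-- A polynomial in the coordinates of `f` (divided by a non-vanishing one). -/
theorem Hom.DefAt.aeval_mem (h : f.DefAt c) (P : MvPolynomial X.ι k) :
    aeval (fun i => f.coord i / f.coord (f.idx c)) P ∈ Y.loc c := by
  rw [aeval_def, eval₂_eq]
  refine sum_mem fun m _ => mul_mem ?_ (prod_mem fun i _ => pow_mem (h.div_mem i) _)
  exact (Y.loc c).algebraMap_mem _

theorem Hom.DefAt.ev_aeval (hc : Y.IsPt c) (h : f.DefAt c) (P : MvPolynomial X.ι k) :
    Y.ev c (aeval (fun i => f.coord i / f.coord (f.idx c)) P) = aeval (f.app c) P := by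
  let g : MvPolynomial X.ι k →ₐ[k] Y.loc c :=
    aeval fun i => ⟨f.coord i / f.coord (f.idx c), h.div_mem i⟩
  have h1 : aeval (f.app c) P = evHom hc (g P) := by
    rw [← AlgHom.comp_apply]
    congr 1
    ext i
    simp [g, Hom.app_apply]
  have h2 : (g P : Y.K) = aeval (fun i => f.coord i / f.coord (f.idx c)) P := by
    rw [← Subalgebra.coe_val, ← AlgHom.comp_apply]
    congr 1
    ext i
    simp [g]
  rw [h1, evHom_apply, h2]

/-- The image of a point is a point. -/
theorem Hom.DefAt.isPt_app (hc : Y.IsPt c) (h : f.DefAt c) : X.IsPt (f.app c) := by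
  refine ⟨⟨f.idx c, by rw [h.app_idx hc]; exact one_ne_zero⟩, fun d G hG h0 => ?_⟩
  rw [← h.ev_aeval hc, aeval_div_form hG, f.isPt.2 d G hG h0, zero_div, ev_zero hc]

theorem Hom.isPt_app_closed {y : Y.ι → k} (hy : Y.IsPt y) : X.IsPt (f.app y) :=
  (Hom.defAt_closed hy).isPt_app hy

/-- Values of functions at the image: `a ∈ K(X)` defined at `f(c)`. -/
theorem Hom.DefAt.hasValue_app (hc : Y.IsPt c) (h : f.DefAt c) {a : X.K} {b : F}
    (hb : X.HasValue (f.app c) a b) :
    ∃ a' ∈ Y.loc c, X.HasValue f.coord a a' ∧ Y.ev c a' = b := by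
  obtain ⟨d, G, H, hG, hH, hn, ha, hb⟩ := hb
  have hr := h.coord_ne
  have h1 := h.aeval_mem G
  have h2 := h.aeval_mem H
  have e1 := h.ev_aeval hc G
  have e2 := h.ev_aeval hc H
  rw [← e2] at hn
  have hn' : aeval f.coord H ≠ 0 := by
    intro h0
    rw [aeval_div_form hH, h0, zero_div, ev_zero hc] at hn
    exact hn rfl
  have h3 := inv_mem_loc hc h2 hn
  have h4 := mul_mem h1 h3
  have h5 := ev_mul hc h1 h3
  rw [ev_inv hc h2 hn, e1, e2] at h5
  have h6 : aeval (fun i => f.coord i / f.coord (f.idx c)) G *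
      (aeval (fun i => f.coord i / f.coord (f.idx c)) H)⁻¹ =
      aeval f.coord G / aeval f.coord H := by
    rw [aeval_div_form hG, aeval_div_form hH]
    field_simp
  rw [h6] at h4 h5
  exact ⟨_, h4, ⟨d, G, H, hG, hH, hn', ha, rfl⟩, by rw [h5, hb, div_eq_mul_inv]⟩

end

/-! ### Dominant morphisms -/

section

variable {f : Hom Y X} (hd : f.Dominant)

include hd

theorem loc_coord : X.loc f.coord = ⊤ := by
  rw [eq_top_iff, ← loc_z]
  exact Spec.loc_le (c := f.coord) (y := X.z) hd

omit hd in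
/-- The comorphism `f^# : K(X) → K(Y)` of a dominant morphism. -/
def Hom.sharp (f : Hom Y X) (hd : f.Dominant) : X.K →ₐ[k] Y.K :=
  (evHom f.isPt).comp
    ((Subalgebra.equivOfEq _ _ (loc_coord hd)).symm.toAlgHom.comp
      (Subalgebra.topEquiv (R := k) (A := X.K)).symm.toAlgHom)

theorem sharp_apply (a : X.K) : f.sharp hd a = X.ev f.coord a := rfl

theorem sharp_of_hasValue {a : X.K} {b : Y.K} (h : X.HasValue f.coord a b) :
    f.sharp hd a = b := h.ev_eq f.isPt

theorem coord_ne_zero {j : X.ι} (hj : X.z j ≠ 0) : f.coord j ≠ 0 := by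
  intro h0
  have := hd 1 (MvPolynomial.X j) (isHomogeneous_X _ _) (by simpa using h0)
  exact hj (by simpa using this)

theorem sharp_coord (i j : X.ι) : f.sharp hd (X.z i / X.z j) = f.coord i / f.coord j := by
  by_cases hj : X.z j = 0
  · have h0 : f.coord j = 0 := by
      have := f.isPt.2 1 (MvPolynomial.X j) (isHomogeneous_X _ _) (by simpa using hj)
      simpa using this
    rw [hj, h0, div_zero, div_zero, map_zero]
  · exact sharp_of_hasValue hd (hasValue_coord i (coord_ne_zero hd hj))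

theorem sharp_mem {F : Type u} [Field F] [Algebra k F] {c : Y.ι → F} (hc : Y.IsPt c)
    (h : f.DefAt c) {a : X.K} (ha : a ∈ X.loc (f.app c)) : f.sharp hd a ∈ Y.loc c := by
  obtain ⟨a', h1, h2, -⟩ := h.hasValue_app hc (hasValue_ev (h.isPt_app hc) ha)
  rw [sharp_of_hasValue hd h2]
  exact h1

theorem ev_sharp {F : Type u} [Field F] [Algebra k F] {c : Y.ι → F} (hc : Y.IsPt c)
    (h : f.DefAt c) {a : X.K} (ha : a ∈ X.loc (f.app c)) :
    Y.ev c (f.sharp hd a) = X.ev (f.app c) a := by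
  obtain ⟨a', -, h2, h3⟩ := h.hasValue_app hc (hasValue_ev (h.isPt_app hc) ha)
  rw [sharp_of_hasValue hd h2]
  exact h3

theorem sharp_mem_closed {y : Y.ι → k} (hy : Y.IsPt y) {a : X.K} (ha : a ∈ X.loc (f.app y)) :
    f.sharp hd a ∈ Y.loc y := sharp_mem hd hy (Hom.defAt_closed hy) ha

theorem sharp_ne_zero {a : X.K} (ha : a ≠ 0) : f.sharp hd a ≠ 0 := by
  rwa [map_ne_zero]

end

end ProjVar

end Pool.Agent.MP9a7843
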