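import Pool.Agent.Lib.MP_9a7843_ag_X.Pts
import Pool.Agent.Lib.MP_9a7843_ag_V.Change
import Pool.Agent.Lib.MP_9a7843_ag_V.Sharp

/-!
# MP_9a7843_ag, block V, module Stab: the local rings of `X` are preserved by the derivations which
are regular on the coordinates of a cell
-/

noncomputable section

open MvPolynomial

namespace MP9a7843

open Pool.Agent.MP9a7843 Pool.Agent.MP9a7843.ProjVar

universe u

section

variable {k : Type u} [Field k] {K : Type u} [Field K] [Algebra k K] {τ : Type}

theorem stab_der_aeval {R : Subalgebra k K} {x : τ → K}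
    (hx : ∀ t, x t ∈ R) (δ : Derivation k K K) (hδ : ∀ t, δ (x t) ∈ R) (P : MvPolynomial τ k) :
    δ (aeval x P) ∈ R := by
  have hm : ∀ p : MvPolynomial τ k, aeval x p ∈ R := by
    intro p
    induction p using MvPolynomial.induction_on with
    | C r => simpa using R.algebraMap_mem r
    | add p q hp hq => rw [map_add]; exact add_mem hp hq
    | mul_X p t hp => rw [map_mul, aeval_X]; exact mul_mem hp (hx t)
  induction P using MvPolynomial.induction_on with
  | C r => simp
  | add p q hp hq => rw [map_add, map_add]; exact add_mem hp hq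
  | mul_X p t hp =>
    rw [map_mul, aeval_X, Derivation.leibniz, smul_eq_mul, smul_eq_mul]
    exact add_mem (mul_mem (hm p) (hδ t)) (mul_mem (hx t) hp)

theorem stab_aeval_X_pow {ι : Type} {F : Type u} [Field F] [Algebra k F] (c : ι → F) (j : ι) (d : ℕ) :
    aeval c ((X j : MvPolynomial ι k) ^ d) = c j ^ d := by rw [map_pow, aeval_X]

theorem stab_der_div {R : Subalgebra k K} {δ : Derivation k K K} {a b : K} (ha : a ∈ R)
    (hb' : b⁻¹ ∈ R) (hda : δ a ∈ R) (hdb : δ b ∈ R) : δ (a / b) ∈ R := by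
  by_cases h0 : b = 0
  · rw [h0, div_zero, map_zero]; exact zero_mem _
  · have h1 : δ (a / b) = (δ a - a / b * δ b) * b⁻¹ := by
      have h2 : δ (a / b * b) = δ a := by rw [div_mul_cancel₀ _ h0]
      rw [Derivation.leibniz, smul_eq_mul, smul_eq_mul] at h2
      rw [← h2]
      field_simp
      ring
    rw [h1]
    refine mul_mem (sub_mem hda (mul_mem ?_ hdb)) hb'
    rw [div_eq_mul_inv]
    exact mul_mem ha hb'

end

variable {k : Type u} [Field k] {p : Idx → k} {i j : Fin 10} {m : Fin 4}

theorem stab_coord_mem (hc : p (cellIdx i j m) ≠ 0) (s : CellVar i j m) :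
    cellCoord (XX k).z i j m s ∈ (XX k).loc p := by
  rw [cellCoord_eq]
  exact coord_div_mem (Y := XX k) (c := p) (coordIdx i j m s) hc

theorem loc_stable (hp : (XX k).IsPt p) (hc : p (cellIdx i j m) ≠ 0)
    (δ : Derivation k (XX k).K (XX k).K)
    (hδ : ∀ s, δ (cellCoord (XX k).z i j m s) ∈ (XX k).loc p) :
    ∀ a ∈ (XX k).loc p, δ a ∈ (XX k).loc p := by
  have hz : (XX k).z (cellIdx i j m) ≠ 0 := z_ne_zero (Y := XX k) hp hc
  have hx := stab_coord_mem (k := k) (p := p) hc
  have hX : ∀ d : ℕ, ((X (cellIdx i j m) : MvPolynomial (XX k).ι k) ^ d).IsHomogeneous d := by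
    intro d
    have := (isHomogeneous_X (σ := (XX k).ι) k (cellIdx i j m)).pow d
    rwa [one_mul] at this
  have e1 : ∀ d : ℕ, aeval (XX k).z ((X (cellIdx i j m) : MvPolynomial (XX k).ι k) ^ d) =
      (XX k).z (cellIdx i j m) ^ d := fun d => by rw [map_pow, aeval_X]
  have e2 : ∀ d : ℕ, (aeval (R := k) (σ := (XX k).ι) (S₁ := k) p)
      ((X (cellIdx i j m) : MvPolynomial (XX k).ι k) ^ d) ≠ 0 := fun d h0 =>
    pow_ne_zero d hc ((stab_aeval_X_pow (ι := (XX k).ι) (k := k) p (cellIdx i j m) d).symm.trans h0)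
  -- forms divided by a power of `z_c`
  have key : ∀ (d : ℕ) (G : MvPolynomial (XX k).ι k), G.IsHomogeneous d →
      aeval (XX k).z G / (XX k).z (cellIdx i j m) ^ d ∈ (XX k).loc p ∧
      δ (aeval (XX k).z G / (XX k).z (cellIdx i j m) ^ d) ∈ (XX k).loc p := by
    intro d G hG
    have h1 : aeval (XX k).z G / (XX k).z (cellIdx i j m) ^ d =
        aeval (cellCoord (XX k).z i j m) (aeval (fun I : (XX k).ι => zC k i j m I) G) := by
      rw [← aeval_div_form hG, ← AlgHom.comp_apply]
      congr 1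
      ext I
      simp only [AlgHom.comp_apply, aeval_X]
      exact (aeval_zC k rel_XX hz I).symm
    constructor
    · have := form_div_mem (Y := XX k) (c := p) hG (hX d) (e2 d)
      rwa [e1] at this
    · rw [h1]
      exact stab_der_aeval hx δ hδ _
  intro a ha
  obtain ⟨b, d, G, H, hG, hH, hn, ha, -⟩ := (mem_loc_iff (Y := XX k) hp).1 ha
  have hH0 : aeval (XX k).z H ≠ 0 := aeval_z_ne_zero (Y := XX k) hp hH hn
  have h2 : a = (aeval (XX k).z G / (XX k).z (cellIdx i j m) ^ d) /
      (aeval (XX k).z H / (XX k).z (cellIdx i j m) ^ d) := by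
    rw [ha]
    field_simp
  rw [h2]
  refine stab_der_div (key d G hG).1 ?_ (key d G hG).2 (key d H hH).2
  rw [inv_div]
  have := form_div_mem (Y := XX k) (c := p) (hX d) hH hn
  rwa [e1] at this

end MP9a7843
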