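import Pool.Agent.Lib.MP_9a7843_ag.Hom
import Pool.Agent.Lib.MP_9a7843_ag_V.Canon
import Pool.Agent.Lib.MP_9a7843_ag_V.Stab

/-!
# MP_9a7843_ag, block V, module RamA: jacobians indexed by finite types, bases of differentials from cells
-/

noncomputable section

open MvPolynomial Classical KaehlerDifferential

open scoped KaehlerDifferential

namespace MP9a7843

open Pool.Agent.MP9a7843 Pool.Agent.MP9a7843.ProjVar

universe u

/-! ### jacobians indexed by an arbitrary finite type -/

section

variable {k : Type u} [Field k] {Y : ProjVar k} {σ : Type} [Fintype σ]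

/-- The `loc y`-module spanned by the jacobians of functions that are regular at `y`. -/
def jacS (B : Module.Basis σ Y.K (Ω[Y.K⁄k])) (y : Y.ι → k) : Submodule (Y.loc y) Y.K :=
  Submodule.span (Y.loc y) (Set.range fun a : σ → Y.loc y => jac B fun i => (a i : Y.K))

theorem jac_mem_jacS (B : Module.Basis σ Y.K (Ω[Y.K⁄k])) {y : Y.ι → k} {a : σ → Y.K}
    (ha : ∀ s, a s ∈ Y.loc y) : jac B a ∈ jacS B y :=
  Submodule.subset_span ⟨fun s => ⟨a s, ha s⟩, rfl⟩

/-- Reindexing (`Module.Basis.det_reindex`). -/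
theorem jac_reindex {K : Type u} [Field K] [Algebra k K] {τ : Type} [Fintype τ] (e : σ ≃ τ)
    (B : Module.Basis σ K (Ω[K⁄k])) (a : τ → K) :
    jac (B.reindex e) a = jac B (a ∘ e) := by
  unfold jac
  rw [Module.Basis.det_reindex]
  rfl

theorem jacS_reindex (e : Fin Y.dim ≃ σ) (B : Module.Basis σ Y.K (Ω[Y.K⁄k])) (y : Y.ι → k) :
    jacS B y = jacMod (B.reindex e.symm) y := by
  unfold jacS jacMod
  congr 1
  ext r
  constructor
  · rintro ⟨a, rfl⟩
    refine ⟨fun i => a (e i), ?_⟩
    change jac (B.reindex e.symm) (fun i => ((a (e i) : Y.loc y) : Y.K)) = jac B fun i => (a i : Y.K)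
    rw [jac_reindex]
    congr 1
    funext s
    simp
  · rintro ⟨a, rfl⟩
    refine ⟨fun s => a (e.symm s), ?_⟩
    change jac B (fun s => ((a (e.symm s) : Y.loc y) : Y.K)) =
      jac (B.reindex e.symm) fun i => (a i : Y.K)
    rw [jac_reindex]
    rfl

/-- `exists_jacMod` for `B.reindex e.symm`. -/
theorem exists_jacS (e : Fin Y.dim ≃ σ) (B : Module.Basis σ Y.K (Ω[Y.K⁄k])) {D : Y.CaDiv}
    (hD : D.IsCanonical) : ∃ s : Y.K, s ≠ 0 ∧ ∀ y, Y.IsPt y →
      jacS B y = Submodule.span (Y.loc y) {s / D.eq y} := by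
  obtain ⟨s, hs, h⟩ := exists_jacMod (B.reindex e.symm) hD
  exact ⟨s, hs, fun y hy => by rw [jacS_reindex e, h y hy]⟩

/-- Same proof as `jacMod_eq`. -/
theorem jacS_eq (B : Module.Basis σ Y.K (Ω[Y.K⁄k]))
    {B' : Module.Basis σ Y.K (Ω[Y.K⁄k])} {x : σ → Y.K} (h : IsDB B' x)
    {y : Y.ι → k} (hx : ∀ i, x i ∈ Y.loc y)
    (hst : ∀ δ : Derivation k Y.K Y.K, (∀ i, δ (x i) ∈ Y.loc y) → ∀ a ∈ Y.loc y, δ a ∈ Y.loc y) :
    jacS B y = Submodule.span (Y.loc y) {jac B x} := by
  refine le_antisymm ?_ ?_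
  · unfold jacS
    rw [Submodule.span_le]
    rintro _ ⟨a, rfl⟩
    have h1 : jac B' (fun i => (a i : Y.K)) ∈ Y.loc y := by
      refine jac_mem_subring B' (Y.loc y) fun s t => hst (pder B' s) (fun i => ?_) _ (a t).2
      rw [pder_x h]
      split_ifs
      · exact one_mem _
      · exact zero_mem _
    change jac B (fun i => (a i : Y.K)) ∈ Submodule.span (Y.loc y) {jac B x}
    rw [Submodule.mem_span_singleton]
    exact ⟨⟨_, h1⟩, (mul_comm _ _).trans (jac_change B B' h fun i => (a i : Y.K)).symm⟩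
  · rw [Submodule.span_singleton_le_iff_mem]
    exact jac_mem_jacS B hx

end

/-! ### Bases of differentials from cells -/

section

variable {k : Type u} [Field k] [CharZero k] {K L : Type u} [Field K] [Algebra k K] [Field L]
  [Algebra k L] {σ : Type} [Fintype σ]

/-- If `x` is a system of generators and algebraically independent in `K` and `L` is algebraic over
`i(K)`, then the `d i(x_s)` are a basis of `Ω[L/k]` (`exists_isDB`). -/
theorem exists_isDB_map (x : σ → K) (hx : AlgebraicIndependent k x)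
    (hg : IntermediateField.adjoin k (Set.range x) = ⊤) (i : K →ₐ[k] L)
    (hi : Algebra.IsAlgebraic i.fieldRange L) :
    ∃ B : Module.Basis σ L (Ω[L⁄k]), IsDB B (i ∘ x) := by
  have h1 : IntermediateField.adjoin k (Set.range (i ∘ x)) = i.fieldRange := by
    rw [AlgHom.fieldRange_eq_map, ← hg, IntermediateField.adjoin_map, Set.range_comp]
  refine exists_isDB (i ∘ x) (hx.map' i.injective) ?_
  rw [h1]
  exact hi

end

section

variable {k : Type u} [Field k] [IsAlgClosed k] [CharZero k]

/-- All cells have the same number `19` of coordinates (`card_cellVar`). -/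
theorem exists_cellEquiv {a b : Fin 10} (hab : a ≠ b) (m : Fin 4) :
    Nonempty (CellVar 0 1 0 ≃ CellVar a b m) := by
  have h1 : Fintype.card (CellVar 0 1 0) = Fintype.card (CellVar a b m) := by
    rw [card_cellVar (by decide) 0, card_cellVar hab m]
  exact ⟨Fintype.equivOfCardEq h1⟩

/-- `dim X = 19` (`IsGenX.trdeg`, `isGenX_XX`). -/
theorem exists_dimEquiv (k : Type u) [Field k] [CharZero k] :
    Nonempty (Fin (XX k).dim ≃ CellVar 0 1 0) := by
  have h1 : (XX k).dim = 19 := by
    unfold ProjVar.dim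
    rw [isGenX_XX.trdeg]
    exact Cardinal.toNat_ofNat 19
  have h2 : Fintype.card (Fin (XX k).dim) = Fintype.card (CellVar 0 1 0) := by
    rw [Fintype.card_fin, h1, card_cellVar (by decide) 0]
  exact ⟨Fintype.equivOfCardEq h2⟩

variable {Y : ProjVar k} {f : Hom Y (XX k)}

/-- `K(Y)` is algebraic over the image of `K(X)`: it contains all `f.coord i / f.coord j`. -/
theorem isAlgebraic_emb (hd : f.Dominant) (hg : f.GenFinite) :
    Algebra.IsAlgebraic hd.emb.fieldRange Y.K := by
  have h1 : IntermediateField.adjoin k {a : Y.K | ∃ i j, a = f.coord i / f.coord j} ≤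
      hd.emb.fieldRange := by
    rw [IntermediateField.adjoin_le_iff]
    rintro _ ⟨i, j, rfl⟩
    by_cases hj : f.coord j = 0
    · rw [hj, div_zero]
      exact zero_mem _
    · refine ⟨(XX k).z i / (XX k).z j, ?_⟩
      change hd.emb _ = _
      rw [Hom.Dominant.emb_apply]
      exact ev_coord_div f.isPt i hj
  refine ⟨fun a => ?_⟩
  have h2 : IsAlgebraic (IntermediateField.adjoin k {a : Y.K | ∃ i j, a = f.coord i / f.coord j}) a :=
    hg.isAlgebraic a
  exact IsAlgebraic.tower_top_of_subalgebra_le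
    (A := (IntermediateField.adjoin k
      {a : Y.K | ∃ i j, a = f.coord i / f.coord j}).toSubalgebra)
    (B := hd.emb.fieldRange.toSubalgebra) h1 h2

/-- Transcendence degrees agree (`isAlgebraic_emb`). -/
theorem exists_dimEquivY (hd : f.Dominant) (hg : f.GenFinite) :
    Nonempty (Fin Y.dim ≃ CellVar 0 1 0) := by
  have h0 := isAlgebraic_emb hd hg
  have h1 : Algebra.trdeg k hd.emb.fieldRange + Algebra.trdeg hd.emb.fieldRange Y.K =
      Algebra.trdeg k Y.K := trdeg_add_eq k hd.emb.fieldRange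
  have e : (XX k).K ≃ₐ[k] hd.emb.fieldRange := AlgEquiv.ofInjective hd.emb hd.emb.injective
  have h2 : Algebra.trdeg k (XX k).K = Algebra.trdeg k hd.emb.fieldRange := e.trdeg_eq
  have h3 : Y.dim = 19 := by
    unfold ProjVar.dim
    rw [← h1, trdeg_eq_zero (R := hd.emb.fieldRange) (A := Y.K), add_zero, ← h2, isGenX_XX.trdeg]
    exact Cardinal.toNat_ofNat 19
  have h4 : Fintype.card (Fin Y.dim) = Fintype.card (CellVar 0 1 0) := by
    rw [Fintype.card_fin, h3, card_cellVar (by decide) 0]
  exact ⟨Fintype.equivOfCardEq h4⟩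

/-- The coordinates of `f` in a cell are the pull-backs of the coordinates of the cell:
`f^#(z_I / z_J) = coord_I / coord_J`. -/
theorem emb_cellCoord (hd : f.Dominant) (a b : Fin 10) (m : Fin 4) (s : CellVar a b m) :
    hd.emb (cellCoord (XX k).z a b m s) = cellCoord (fun I : Idx => f.coord I) a b m s := by
  rw [cellCoord_eq, cellCoord_eq]
  by_cases h : f.coord (cellIdx a b m) = 0
  · have h1 : (XX k).z (cellIdx a b m) = 0 := by
      have h2 := hd 1 (X (cellIdx a b m) : MvPolynomial (XX k).ι k) (isHomogeneous_X _ _)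
        (by rw [aeval_X]; exact h)
      rwa [aeval_X] at h2
    rw [h1, h, div_zero, div_zero, map_zero]
  · rw [Hom.Dominant.emb_apply]
    exact ev_coord_div f.isPt (coordIdx a b m s) h

/-- They are regular at `y` if `f(y)` is in the cell (`ev_coord_mem`). -/
theorem cellCoord_mem (hd : f.Dominant) {y : Y.ι → k} (hy : Y.IsPt y) {a b : Fin 10} {m : Fin 4}
    (hc : f.app y (cellIdx a b m) ≠ 0) (s : CellVar a b m) :
    cellCoord (fun I : Idx => f.coord I) a b m s ∈ Y.loc y := by
  have h1 : cellCoord (XX k).z a b m s ∈ (XX k).loc (f.app y) := by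
    rw [cellCoord_eq]
    exact coord_div_mem (Y := XX k) (c := f.app y) (coordIdx a b m s) hc
  rw [← emb_cellCoord hd, Hom.Dominant.emb_apply]
  exact (f.ev_coord_mem hy h1).2.1

end

end MP9a7843
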