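import Pool.Agent.Lib.MP_9a7843_ag.Cyc
import Pool.Agent.Lib.MP_9a7843_ag_V.RamA

/-!
# MP_9a7843_ag, block V, module BigA: homogeneous equations over `K(X)`
-/

noncomputable section

open MvPolynomial Classical

namespace MP9a7843

open Pool.Agent.MP9a7843 Pool.Agent.MP9a7843.ProjVar

universe u

variable {k : Type u} [Field k] [IsAlgClosed k] [CharZero k] {Y : ProjVar k} {f : Hom Y (XX k)}

/-- Every `t ∈ K(Y)`, `t ≠ 0`, satisfies an equation `G_0(w) + G_1(w) t + … + G_N(w) t^N = 0`, where
`w = f.coord` and the `G_l` are forms of the same degree with `G_0(w) ≠ 0`.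

Proof.  `t` is algebraic over the image of `K(X)` (`isAlgebraic_emb`); after division by a power of
`t` the constant coefficient is not zero.  The coefficients are `f^#(a_l)`,
`a_l = P_l(z) / Q_l(z)` (`exists_forms`); multiply by the product of the `Q_l`; `f^#` of a quotient
of forms is the quotient of their values at `w`. -/
theorem exists_equation (hd : f.Dominant) (hg : f.GenFinite) {t : Y.K} (ht : t ≠ 0) :
    ∃ (d N : ℕ) (G : ℕ → MvPolynomial (XX k).ι k), (∀ l, (G l).IsHomogeneous d) ∧
      aeval f.coord (G 0) ≠ 0 ∧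
      ∑ l ∈ Finset.range (N + 1), aeval f.coord (G l) * t ^ l = 0 := by
  have halg := isAlgebraic_emb hd hg
  have hint : IsIntegral hd.emb.fieldRange t := (halg.isAlgebraic t).isIntegral
  have hc0 := minpoly.coeff_zero_ne_zero hint ht
  have h1 : ∀ l : ℕ, ∃ a : (XX k).K,
      hd.emb a = (((minpoly hd.emb.fieldRange t).coeff l : hd.emb.fieldRange) : Y.K) :=
    fun l => ((minpoly hd.emb.fieldRange t).coeff l).2
  choose a ha using h1
  have h2 : ∀ l : ℕ, ∃ (e : ℕ) (P Q : MvPolynomial (XX k).ι k), P.IsHomogeneous e ∧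
      Q.IsHomogeneous e ∧ aeval (XX k).z Q ≠ 0 ∧ a l = aeval (XX k).z P / aeval (XX k).z Q :=
    fun l => exists_forms (a l)
  choose e P Q hP hQ hQ0 haPQ using h2
  have hQc : ∀ l, aeval f.coord (Q l) ≠ 0 := fun l h0 => hQ0 l (hd _ _ (hQ l) h0)
  have hemb : ∀ l, hd.emb (a l) * aeval f.coord (Q l) = aeval f.coord (P l) := by
    intro l
    rw [Hom.Dominant.emb_apply, haPQ l, ev_form_div f.isPt (hP l) (hQ l) (hQc l),
      div_mul_cancel₀ _ (hQc l)]
  have hG : ∀ l ∈ Finset.range ((minpoly hd.emb.fieldRange t).natDegree + 1),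
      aeval f.coord (P l * ∏ m ∈
        (Finset.range ((minpoly hd.emb.fieldRange t).natDegree + 1)).erase l, Q m) =
      (∏ m ∈ Finset.range ((minpoly hd.emb.fieldRange t).natDegree + 1),
        aeval f.coord (Q m)) * hd.emb (a l) := by
    intro l hl
    rw [map_mul, map_prod, ← hemb l, ← Finset.mul_prod_erase _ _ hl]
    ring
  have hprod : (∏ m ∈ Finset.range ((minpoly hd.emb.fieldRange t).natDegree + 1),
        aeval f.coord (Q m)) ≠ 0 := Finset.prod_ne_zero_iff.mpr fun m _ => hQc m
  refine ⟨∑ m ∈ Finset.range ((minpoly hd.emb.fieldRange t).natDegree + 1), e m,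
    (minpoly hd.emb.fieldRange t).natDegree,
    fun l => if l ∈ Finset.range ((minpoly hd.emb.fieldRange t).natDegree + 1) then
      P l * ∏ m ∈ (Finset.range ((minpoly hd.emb.fieldRange t).natDegree + 1)).erase l, Q m
      else 0, ?_, ?_, ?_⟩
  · intro l
    by_cases hl : l ∈ Finset.range ((minpoly hd.emb.fieldRange t).natDegree + 1)
    · change (if l ∈ Finset.range ((minpoly hd.emb.fieldRange t).natDegree + 1) then
        P l * ∏ m ∈ (Finset.range ((minpoly hd.emb.fieldRange t).natDegree + 1)).erase l, Q m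
        else 0).IsHomogeneous _
      rw [if_pos hl, ← Finset.add_sum_erase _ _ hl]
      exact (hP l).mul (IsHomogeneous.prod _ Q e fun m _ => hQ m)
    · change (if l ∈ Finset.range ((minpoly hd.emb.fieldRange t).natDegree + 1) then
        P l * ∏ m ∈ (Finset.range ((minpoly hd.emb.fieldRange t).natDegree + 1)).erase l, Q m
        else 0).IsHomogeneous _
      rw [if_neg hl]
      exact isHomogeneous_zero _ _ _
  · have h0 : 0 ∈ Finset.range ((minpoly hd.emb.fieldRange t).natDegree + 1) := by simp
    change aeval f.coord (if 0 ∈ Finset.range ((minpoly hd.emb.fieldRange t).natDegree + 1) then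
      P 0 * ∏ m ∈ (Finset.range ((minpoly hd.emb.fieldRange t).natDegree + 1)).erase 0, Q m
      else 0) ≠ 0
    rw [if_pos h0, hG 0 h0]
    refine mul_ne_zero hprod ?_
    rw [ha 0]
    intro h3
    exact hc0 (Subtype.ext h3)
  · have h3 : ∀ l ∈ Finset.range ((minpoly hd.emb.fieldRange t).natDegree + 1),
        aeval f.coord (if l ∈ Finset.range ((minpoly hd.emb.fieldRange t).natDegree + 1) then
      P l * ∏ m ∈ (Finset.range ((minpoly hd.emb.fieldRange t).natDegree + 1)).erase l, Q m
      else 0) * t ^ l = (∏ m ∈ Finset.range ((minpoly hd.emb.fieldRange t).natDegree + 1),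
        aeval f.coord (Q m)) *
        ((((minpoly hd.emb.fieldRange t).coeff l : hd.emb.fieldRange) : Y.K) * t ^ l) := by
      intro l hl
      rw [if_pos hl, hG l hl, ha l, mul_assoc]
    rw [Finset.sum_congr rfl h3, ← Finset.mul_sum]
    have h4 := minpoly.aeval hd.emb.fieldRange t
    rw [Polynomial.aeval_eq_sum_range] at h4
    have h5 : ∑ l ∈ Finset.range ((minpoly hd.emb.fieldRange t).natDegree + 1),
        ((((minpoly hd.emb.fieldRange t).coeff l : hd.emb.fieldRange) : Y.K) * t ^ l) = 0 := by
      rw [← h4]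
      refine Finset.sum_congr rfl fun l _ => ?_
      rw [Algebra.smul_def]
      rfl
    rw [h5, mul_zero]

/-- For `t ∈ loc y` and an index `j` such that all `w_i / w_j` are regular at `y`:
`G_0(w) / w_j^d = - t * ∑_{l ≥ 1} (G_l(w) / w_j^d) t^(l-1) ∈ t * loc y`. -/
theorem equation_mem {d N : ℕ} {G : ℕ → MvPolynomial (XX k).ι k} (hG : ∀ l, (G l).IsHomogeneous d)
    {t : Y.K} (ht : t ≠ 0)
    (h : ∑ l ∈ Finset.range (N + 1), aeval f.coord (G l) * t ^ l = 0) {y : Y.ι → k}
    (hty : t ∈ Y.loc y) {j : (XX k).ι} (hj : f.coord j ≠ 0)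
    (hjy : ∀ i, f.coord i / f.coord j ∈ Y.loc y) :
    aeval f.coord (G 0) / f.coord j ^ d / t ∈ Y.loc y := by
  have hjd : f.coord j ^ d ≠ 0 := pow_ne_zero _ hj
  have hmem : ∀ l, aeval f.coord (G l) / f.coord j ^ d ∈ Y.loc y := by
    intro l
    have e : aeval f.coord (G l) / f.coord j ^ d =
        aeval (fun i => f.coord i / f.coord j) (G l) := by
      have e1 : (fun i => f.coord i / f.coord j) = (f.coord j)⁻¹ • f.coord := by
        funext i
        rw [Pi.smul_apply, smul_eq_mul, div_eq_mul_inv, mul_comm]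
      rw [e1, aeval_smul (hG l), inv_pow, div_eq_mul_inv, mul_comm]
    rw [e]
    generalize G l = P
    induction P using MvPolynomial.induction_on with
    | C r =>
      rw [aeval_C]
      exact Subalgebra.algebraMap_mem _ r
    | add p q hp hq => rw [map_add]; exact add_mem hp hq
    | mul_X p i hp => rw [map_mul, aeval_X]; exact mul_mem hp (hjy i)
  rw [Finset.sum_range_succ', pow_zero, mul_one] at h
  have e : aeval f.coord (G 0) / f.coord j ^ d / t =
      -∑ l ∈ Finset.range N, aeval f.coord (G (l + 1)) / f.coord j ^ d * t ^ l := by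
    have e1 : aeval f.coord (G 0) =
        -∑ l ∈ Finset.range N, aeval f.coord (G (l + 1)) * t ^ (l + 1) := by
      linear_combination h
    rw [e1, div_div, div_eq_iff (mul_ne_zero hjd ht), neg_mul, Finset.sum_mul]
    congr 1
    refine Finset.sum_congr rfl fun l _ => ?_
    field_simp
    rw [pow_succ, mul_assoc]
  rw [e]
  exact neg_mem (sum_mem fun l _ => mul_mem (hmem _) (pow_mem hty l))

end MP9a7843
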