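import Pool.Agent.Lib.MP_9a7843_ag.Cyc
import Pool.Agent.Lib.MP_9a7843_ag_V.BigA

/-!
# MP_9a7843_ag, block V, module Big: the pull-back of a hyperplane section is big
-/

noncomputable section

open MvPolynomial Classical

namespace MP9a7843

open Pool.Agent.MP9a7843 Pool.Agent.MP9a7843.ProjVar

universe u

variable {k : Type u} [Field k] [IsAlgClosed k] [CharZero k] {Y : ProjVar k} {f : Hom Y (XX k)}

/-- The value of a form at `w`, divided by a power of `w_j`, is a polynomial in the `w_i / w_j`. -/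
private theorem big_form_mem {e : ℕ} {P : MvPolynomial (XX k).ι k} (hP : P.IsHomogeneous e)
    {y : Y.ι → k} {j : (XX k).ι} (hj : f.coord j ≠ 0)
    (hjy : ∀ i, f.coord i / f.coord j ∈ Y.loc y) :
    aeval f.coord P / f.coord j ^ e ∈ Y.loc y := by
  have h1 : f.coord = f.coord j • fun i => f.coord i / f.coord j := by
    funext i
    rw [Pi.smul_apply, smul_eq_mul, mul_div_cancel₀ _ hj]
  have h2 : aeval f.coord P = f.coord j ^ e * aeval (fun i => f.coord i / f.coord j) P := by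
    have h3 := aeval_smul (Y := XX k) (c := fun i => f.coord i / f.coord j) hP (f.coord j)
    rw [← h1] at h3
    exact h3
  rw [h2, mul_div_cancel_left₀ _ (pow_ne_zero e hj)]
  have h4 : aeval (fun i => f.coord i / f.coord j) P =
      ((aeval (fun i => (⟨f.coord i / f.coord j, hjy i⟩ : Y.loc y)) P : Y.loc y) : Y.K) := by
    have h5 := comp_aeval_apply (fun i => (⟨f.coord i / f.coord j, hjy i⟩ : Y.loc y))
      (Y.loc y).val P
    exact h5.symm
  rw [h4]
  exact Subtype.mem _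

/-- A form `G` of degree `d ≥ 1` with `G(w) ≠ 0` such that `G(w) / w_j^d` is divisible by the local
equation of the hyperplane section of `Y` at every closed point.

Proof.  Let `z_{i₀}` be the coordinate in the definition of `hyperplane`.  For every `i` with
`z_i ≠ 0` take `G_{i,0}` of `exists_equation` for `t = z_{i₀} / z_i`; `G` is the product of all
these `G_{i,0}` and of one coordinate `X_{i₁}` with `w_{i₁} ≠ 0`.  At `y` use `equation_mem` for
the index `i` with `y_i ≠ 0` of the definition of `hyperplane`; the other factors are in `loc y`. -/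
theorem exists_bigForm (hd : f.Dominant) (hg : f.GenFinite) :
    ∃ (d : ℕ) (G : MvPolynomial (XX k).ι k), 1 ≤ d ∧ G.IsHomogeneous d ∧ aeval f.coord G ≠ 0 ∧
      ∀ y : Y.ι → k, Y.IsPt y → ∀ j, f.coord j ≠ 0 → (∀ i, f.coord i / f.coord j ∈ Y.loc y) →
        aeval f.coord G / f.coord j ^ d / Y.hyperplane.eq y ∈ Y.loc y := by
  obtain ⟨i₀, hi₀⟩ : ∃ i₀, i₀ = Classical.epsilon fun i => Y.z i ≠ 0 := ⟨_, rfl⟩
  have hz₀ : Y.z i₀ ≠ 0 := by
    rw [hi₀]
    exact Classical.epsilon_spec Y.exists_ne_zero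
  have key : ∀ i : Y.ι, Y.z i ≠ 0 → ∃ (d N : ℕ) (G : ℕ → MvPolynomial (XX k).ι k),
      (∀ l, (G l).IsHomogeneous d) ∧ aeval f.coord (G 0) ≠ 0 ∧
        ∑ l ∈ Finset.range (N + 1), aeval f.coord (G l) * (Y.z i₀ / Y.z i) ^ l = 0 :=
    fun i hi => exists_equation hd hg (div_ne_zero hz₀ hi)
  choose! dd N GG h1 h2 h3 using key
  obtain ⟨i₁, hi₁⟩ := f.isPt.1
  obtain ⟨S, hS⟩ : ∃ S : Finset Y.ι, ∀ i, i ∈ S ↔ Y.z i ≠ 0 :=
    ⟨Finset.univ.filter fun i => Y.z i ≠ 0, fun i => by simp⟩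
  refine ⟨∑ i ∈ S, dd i + 1, (∏ i ∈ S, GG i 0) * X i₁, by omega, ?_, ?_, ?_⟩
  · exact (IsHomogeneous.prod S (fun i => GG i 0) dd (fun i hi => h1 i ((hS i).1 hi) 0)).mul
      (isHomogeneous_X _ _)
  · rw [map_mul, map_prod, aeval_X]
    exact mul_ne_zero (Finset.prod_ne_zero_iff.2 fun i hi => h2 i ((hS i).1 hi)) hi₁
  · intro y hy j hj hjy
    obtain ⟨i, hi⟩ : ∃ i, i = Classical.epsilon fun i => y i ≠ 0 := ⟨_, rfl⟩
    have hyi : y i ≠ 0 := by
      rw [hi]
      exact Classical.epsilon_spec hy.1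
    have hzi : Y.z i ≠ 0 := z_ne_zero hy hyi
    have heq : Y.hyperplane.eq y = Y.z i₀ / Y.z i := by
      rw [hi₀, hi]
      rfl
    have hiS : i ∈ S := (hS i).2 hzi
    have ht : Y.z i₀ / Y.z i ∈ Y.loc y := coord_div_mem i₀ hyi
    have h4 := equation_mem (f := f) (h1 i hzi) (div_ne_zero hz₀ hzi) (h3 i hzi) ht hj hjy
    have h5 : ∏ i' ∈ S.erase i, aeval f.coord (GG i' 0) / f.coord j ^ dd i' ∈ Y.loc y := by
      refine prod_mem fun i' hi' => ?_
      exact big_form_mem (h1 i' ((hS i').1 (Finset.mem_of_mem_erase hi')) 0) hj hjy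
    have h6 := mul_mem (mul_mem h4 h5) (hjy i₁)
    rw [heq]
    have h7 : aeval f.coord ((∏ i ∈ S, GG i 0) * X i₁) / f.coord j ^ (∑ i ∈ S, dd i + 1) /
        (Y.z i₀ / Y.z i) = aeval f.coord (GG i 0) / f.coord j ^ dd i / (Y.z i₀ / Y.z i) *
          (∏ i' ∈ S.erase i, aeval f.coord (GG i' 0) / f.coord j ^ dd i') *
            (f.coord i₁ / f.coord j) := by
      rw [map_mul, map_prod, aeval_X, pow_succ, ← Finset.prod_pow_eq_pow_sum,
        ← Finset.mul_prod_erase S (fun i => aeval f.coord (GG i 0)) hiS,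
        ← Finset.mul_prod_erase S (fun i => f.coord j ^ dd i) hiS, Finset.prod_div_distrib]
      have h8 : ∏ i' ∈ S.erase i, f.coord j ^ dd i' ≠ 0 :=
        Finset.prod_ne_zero_iff.2 fun i' _ => pow_ne_zero _ hj
      field_simp
    rw [h7]
    exact h6

/-- The divisor `E = div ψ + d f^*(hyperplane of X) - (hyperplane of Y)`,
`ψ = G(w) / w_{i₁}^d` (`i₁` the index in the definition of the hyperplane section of `X`), is
effective: its local equation at `y` is `G(w) / w_j^d / hyperplane.eq y`, `j` the index with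
`f(y)_j ≠ 0` of the definition (`w_i / w_j` is regular at `y`: it is `f^#` of `z_i / z_j`,
`ev_coord_mem`). -/
theorem exists_effective (hd : f.Dominant) (hg : f.GenFinite) :
    ∃ (d : ℕ) (E : Y.CaDiv), 1 ≤ d ∧ E.Effective ∧ ∀ C : Y.Curve,
      (Y.deg C.c E : ℝ) = d * (Y.deg C.c (hd.pull (XX k).hyperplane) : ℝ) -
        (Y.deg C.c Y.hyperplane : ℝ) := by
  obtain ⟨d, G, hd1, hG, hG0, h⟩ := exists_bigForm hd hg
  obtain ⟨i₁, hi₁⟩ : ∃ i₁, i₁ = Classical.epsilon fun i => (XX k).z i ≠ 0 := ⟨_, rfl⟩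
  have hz₁ : (XX k).z i₁ ≠ 0 := by
    rw [hi₁]
    exact Classical.epsilon_spec (XX k).exists_ne_zero
  have hw₁ : f.coord i₁ ≠ 0 := by
    intro h0
    apply hz₁
    have h1 := hd 1 (X i₁) (isHomogeneous_X _ _) (by rw [aeval_X]; exact h0)
    rwa [aeval_X] at h1
  have hψ : aeval f.coord G / f.coord i₁ ^ d ≠ 0 := div_ne_zero hG0 (pow_ne_zero d hw₁)
  refine ⟨d, ((CaDiv.prin _ hψ).add ((hd.pull (XX k).hyperplane).zsmul (d : ℤ))).add
    Y.hyperplane.neg, hd1, ?_, ?_⟩
  · intro y hy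
    have hay := f.isPt_app hy
    obtain ⟨j, hj⟩ : ∃ j, j = Classical.epsilon fun j => f.app y j ≠ 0 := ⟨_, rfl⟩
    have hyj : f.app y j ≠ 0 := by
      rw [hj]
      exact Classical.epsilon_spec hay.1
    have hwj : f.coord j ≠ 0 := by
      intro h0
      apply hyj
      unfold Hom.app
      rw [h0, zero_div, ev_zero hy]
    have hreg : ∀ i, f.coord i / f.coord j ∈ Y.loc y := by
      intro i
      have h1 := (f.ev_coord_mem hy (coord_div_mem i hyj)).2.1
      rwa [ev_coord_div f.isPt i hwj] at h1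
    have h2 := h y hy j hwj hreg
    have h3 : (hd.pull (XX k).hyperplane).eq y = f.coord i₁ / f.coord j := by
      have h4 : (hd.pull (XX k).hyperplane).eq y =
          (XX k).ev f.coord ((XX k).z i₁ / (XX k).z j) := by
        rw [hi₁, hj]
        rfl
      rw [h4, ev_coord_div f.isPt i₁ hwj]
    have h5 : (((CaDiv.prin _ hψ).add ((hd.pull (XX k).hyperplane).zsmul (d : ℤ))).add
        Y.hyperplane.neg).eq y = aeval f.coord G / f.coord i₁ ^ d *
          (hd.pull (XX k).hyperplane).eq y ^ (d : ℤ) * (Y.hyperplane.eq y)⁻¹ := rfl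
    rw [h5, h3, zpow_natCast, div_pow]
    have h6 : aeval f.coord G / f.coord i₁ ^ d * (f.coord i₁ ^ d / f.coord j ^ d) =
        aeval f.coord G / f.coord j ^ d := by
      have h7 : f.coord i₁ ^ d ≠ 0 := pow_ne_zero d hw₁
      rw [div_mul_div_cancel₀ h7]
    rw [h6, ← div_eq_mul_inv]
    exact h2
  · intro C
    rw [deg_add C.isCurveField C.isPt, deg_add C.isCurveField C.isPt,
      deg_prin C.isCurveField C.isPt, deg_zsmul C.isCurveField C.isPt,
      deg_neg C.isCurveField C.isPt]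
    push_cast
    ring

/-- A class which is a positive multiple of the pull-back of the hyperplane class is big:
`δ - (r/d) H_Y = (r/d) E`. -/
theorem big_pull (hd : f.Dominant) (hg : f.GenFinite) {δ : Y.Curve → ℝ} {r : ℝ} (hr : 0 < r)
    (h : ∀ C : Y.Curve, δ C = r * (Y.deg C.c (hd.pull (XX k).hyperplane) : ℝ)) : Y.Big δ := by
  obtain ⟨d, E, hd1, hE, h1⟩ := exists_effective hd hg
  have hd0 : (0 : ℝ) < d := by exact_mod_cast hd1
  refine ⟨r / d, div_pos hr hd0, ?_⟩
  have h2 := (effClass_cls hE).smul (div_pos hr hd0).le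
  have e : (fun C : Y.Curve => δ C - r / d * (Y.deg C.c Y.hyperplane : ℝ)) =
      (r / d) • E.cls := by
    funext C
    rw [Pi.smul_apply, smul_eq_mul, h C]
    change _ = r / d * (Y.deg C.c E : ℝ)
    rw [h1 C]
    field_simp
  rw [e]
  exact h2

end MP9a7843
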