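import Pool.Agent.Lib.MP_9a7843_ag_V.Canon

/-!
# MP_9a7843_ag, block V, module CanonExt: canonical divisors in terms of the exterior power

`isCanonical_iff_ext`: the definition of canonical divisors in `Defs.lean` (forms are given by
their values on vector fields) agrees with the definition in terms of the exterior power of the
Kaehler differentials.  This module is not used in the proof of the main theorem.
-/

noncomputable section

open Classical KaehlerDifferential

open scoped KaehlerDifferential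

namespace MP9a7843

open Pool.Agent.MP9a7843 Pool.Agent.MP9a7843.ProjVar

universe u

variable {k : Type u} [Field k] {Y : ProjVar k}

/-- The regular `n`-forms at `y`, in the exterior power. -/
def regularFormsExt (Y : ProjVar k) (y : Y.ι → k) :
    Submodule (Y.loc y) (⋀[Y.K]^Y.dim (Ω[Y.K⁄k])) :=
  Submodule.span (Y.loc y) (Set.range fun a : Fin Y.dim → Y.loc y =>
    exteriorPower.ιMulti Y.K Y.dim fun i => KaehlerDifferential.D k Y.K (a i : Y.K))

/-- `D` is the divisor of an element `ω ≠ 0` of the exterior power. -/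
def IsCanonicalExt (D : Y.CaDiv) : Prop :=
  ∃ ω : ⋀[Y.K]^Y.dim (Ω[Y.K⁄k]), ω ≠ 0 ∧ ∀ y, Y.IsPt y →
    regularFormsExt Y y = Submodule.span (Y.loc y) {(D.eq y)⁻¹ • ω}

/-- The linear form on `⋀^n Ω` which corresponds to the determinant. -/
def detForm (B : Module.Basis (Fin Y.dim) Y.K (Ω[Y.K⁄k])) :
    (⋀[Y.K]^Y.dim (Ω[Y.K⁄k])) →ₗ[Y.K] Y.K :=
  exteriorPower.alternatingMapLinearEquiv B.det

theorem detForm_ιMulti (B : Module.Basis (Fin Y.dim) Y.K (Ω[Y.K⁄k]))
    (v : Fin Y.dim → Ω[Y.K⁄k]) :
    detForm B (exteriorPower.ιMulti Y.K Y.dim v) = B.det v :=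
  exteriorPower.alternatingMapLinearEquiv_apply_ιMulti _ _

private theorem CanonExt_det (B : Module.Basis (Fin Y.dim) Y.K (Ω[Y.K⁄k])) (a : Fin Y.dim → Y.K) :
    (B.det fun i => D k Y.K (a i)) = jac B a := by
  unfold jac
  rw [Subsingleton.elim (instDecidableEqFin Y.dim) fun a b => Classical.propDecidable (a = b)]

/-- `ω = detForm ω • (B_1 ∧ … ∧ B_n)`: both sides are linear in `ω` and agree on the generators
`v_1 ∧ … ∧ v_n` (`AlternatingMap.eq_smul_basis_det`). -/
theorem eq_detForm_smul (B : Module.Basis (Fin Y.dim) Y.K (Ω[Y.K⁄k]))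
    (ω : ⋀[Y.K]^Y.dim (Ω[Y.K⁄k])) :
    ω = detForm B ω • exteriorPower.ιMulti Y.K Y.dim (fun i => B i) := by
  have key : (LinearMap.id : (⋀[Y.K]^Y.dim (Ω[Y.K⁄k])) →ₗ[Y.K] _) =
      (LinearMap.toSpanSingleton Y.K _ (exteriorPower.ιMulti Y.K Y.dim (fun i => B i))).comp
        (detForm B) := by
    refine exteriorPower.linearMap_ext ?_
    refine Module.Basis.ext_alternating B fun v hv => ?_
    obtain ⟨σ, hσ⟩ : ∃ σ : Equiv.Perm (Fin Y.dim), v = σ :=
      ⟨Equiv.ofBijective v (Finite.injective_iff_bijective.1 hv), rfl⟩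
    subst hσ
    have h1 : exteriorPower.ιMulti Y.K Y.dim (fun i => B (σ i)) =
        Equiv.Perm.sign σ • exteriorPower.ιMulti Y.K Y.dim (fun i => B i) :=
      (exteriorPower.ιMulti Y.K Y.dim).map_perm (fun i => B i) σ
    have h2 : B.det (fun i => B (σ i)) = Equiv.Perm.sign σ • (1 : Y.K) := by
      have := B.det.map_perm (fun i => B i) σ
      rw [show B.det (fun i => B i) = 1 from B.det_self] at this
      exact this
    change exteriorPower.ιMulti Y.K Y.dim (fun i => B (σ i)) =
      detForm B (exteriorPower.ιMulti Y.K Y.dim (fun i => B (σ i))) •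
        exteriorPower.ιMulti Y.K Y.dim (fun i => B i)
    rw [detForm_ιMulti, h2, h1]
    rcases Int.units_eq_one_or (Equiv.Perm.sign σ) with h | h
    · rw [h, one_smul, one_smul, one_smul]
    · rw [h, Units.neg_smul, Units.neg_smul, one_smul, one_smul]
      exact (neg_one_smul Y.K _).symm
  exact congrArg (fun f => f ω) key

/-- The image of the module of regular forms under `detForm` is `jacMod`. -/
theorem map_regularFormsExt (B : Module.Basis (Fin Y.dim) Y.K (Ω[Y.K⁄k])) (y : Y.ι → k) :
    (regularFormsExt Y y).map ((detForm B).restrictScalars (Y.loc y)) = jacMod B y := by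
  unfold regularFormsExt jacMod
  rw [Submodule.map_span, ← Set.range_comp]
  congr 2
  funext a
  rw [Function.comp_apply, LinearMap.restrictScalars_apply, detForm_ιMulti, CanonExt_det]

/-- A canonical divisor in terms of jacobians: `s = detForm ω`. -/
theorem exists_jacMod_ext (B : Module.Basis (Fin Y.dim) Y.K (Ω[Y.K⁄k])) {D : Y.CaDiv}
    (hD : IsCanonicalExt D) : ∃ s : Y.K, s ≠ 0 ∧ ∀ y, Y.IsPt y →
      jacMod B y = Submodule.span (Y.loc y) {s / D.eq y} := by
  obtain ⟨ω, hω, h⟩ := hD
  refine ⟨detForm B ω, fun h0 => hω ?_, fun y hy => ?_⟩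
  · rw [eq_detForm_smul B ω, h0, zero_smul]
  · rw [← map_regularFormsExt, h y hy, Submodule.map_span, Set.image_singleton]
    congr 2
    change detForm B ((D.eq y)⁻¹ • ω) = _
    rw [map_smul, smul_eq_mul, div_eq_inv_mul]

/-- Converse: `ω = s • (B_1 ∧ … ∧ B_n)` (`detForm B` is injective by `eq_detForm_smul`). -/
theorem isCanonicalExt_of_jacMod (B : Module.Basis (Fin Y.dim) Y.K (Ω[Y.K⁄k])) {D : Y.CaDiv}
    {s : Y.K} (hs : s ≠ 0)
    (h : ∀ y, Y.IsPt y → jacMod B y = Submodule.span (Y.loc y) {s / D.eq y}) :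
    IsCanonicalExt D := by
  have h1 : detForm B (s • exteriorPower.ιMulti Y.K Y.dim (fun i => B i)) = s := by
    rw [map_smul, detForm_ιMulti, show B.det (fun i => B i) = 1 from B.det_self, smul_eq_mul,
      mul_one]
  have hinj : Function.Injective (detForm B) := by
    intro a b hab
    rw [eq_detForm_smul B a, eq_detForm_smul B b, hab]
  refine ⟨s • exteriorPower.ιMulti Y.K Y.dim (fun i => B i), fun h0 => hs ?_,
    fun y hy => ?_⟩
  · rw [← h1, h0, map_zero]
  · have hinj' : Function.Injective ((detForm B).restrictScalars (Y.loc y)) := hinj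
    refine Submodule.map_injective_of_injective hinj' ?_
    rw [map_regularFormsExt, h y hy, Submodule.map_span, Set.image_singleton]
    congr 2
    change _ = detForm B ((D.eq y)⁻¹ • (s • exteriorPower.ιMulti Y.K Y.dim (fun i => B i)))
    rw [map_smul, h1, smul_eq_mul, div_eq_inv_mul]

/-- The two definitions of canonical divisors agree. -/
theorem isCanonical_iff_ext [CharZero k] (D : Y.CaDiv) : D.IsCanonical ↔ IsCanonicalExt D := by
  obtain ⟨x, B, -⟩ := exists_basis_dim Y
  constructor
  · intro h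
    obtain ⟨s, hs, h1⟩ := exists_jacMod B h
    exact isCanonicalExt_of_jacMod B hs h1
  · intro h
    obtain ⟨s, hs, h1⟩ := exists_jacMod_ext B h
    exact isCanonical_of_jacMod B hs h1

end MP9a7843
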