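import Pool.Agent.Lib.MP_9a7843_ag.Cyc
import Pool.Agent.Lib.MP_9a7843_ag_D.Ord

/-!
# MP_9a7843_ag, block V, module K3A: orders of Cartier divisors along valuation rings, uniform exponents
-/

noncomputable section

open MvPolynomial Classical

namespace MP9a7843

open Pool.Agent.MP9a7843 Pool.Agent.MP9a7843.ProjVar

universe u

variable {k : Type u} [Field k] [IsAlgClosed k] [CharZero k]

/-! ### General lemmas -/

section

variable {Y : ProjVar k}

/-- The order of a Cartier divisor along a discrete valuation ring `A` of `K(Y)` over `k`: the order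
of the local equation at a closed point `y` with `loc y ⊂ A`. -/
def ordDiv (D : Y.CaDiv) (A : ValuationSubring Y.K) : ℤ :=
  ord A (D.eq (Classical.epsilon fun y => Y.IsPt y ∧ ∀ a ∈ Y.loc y, a ∈ A))

omit [IsAlgClosed k] [CharZero k] in
private theorem k3a_ord_eq {A : ValuationSubring Y.K} (hA : IsDVRof k A) {a b : Y.K}
    (ha : a ≠ 0) (hb : b ≠ 0) (h : a / b ∈ A) (h' : b / a ∈ A) : ord A a = ord A b := by
  have h1 : A.valuation (a / b) = 1 :=
    (val_eq_one_iff (div_ne_zero ha hb)).2 ⟨h, by rw [inv_div]; exact h'⟩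
  have h2 := hA.ord_eq_of_val h1
  rw [hA.ord_div ha hb] at h2
  omega

/-- Independence of the choice of `y` (`CaDiv.ratio_mem` with `c = z` and `ev_z`: the quotient of
two local equations is a unit of `A`, so it has order `0`). -/
theorem ordDiv_eq (D : Y.CaDiv) {A : ValuationSubring Y.K} (hA : IsDVRof k A) {y : Y.ι → k}
    (hy : Y.IsPt y) (hyA : ∀ a ∈ Y.loc y, a ∈ A) : ordDiv D A = ord A (D.eq y) := by
  have hex : ∃ y : Y.ι → k, Y.IsPt y ∧ ∀ a ∈ Y.loc y, a ∈ A := ⟨y, hy, hyA⟩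
  have h0 := Classical.epsilon_spec hex
  unfold ordDiv
  generalize (Classical.epsilon fun y : Y.ι → k => Y.IsPt y ∧ ∀ a ∈ Y.loc y, a ∈ A) = y' at h0 ⊢
  have key : ∀ y y' : Y.ι → k, Y.IsPt y → (∀ a ∈ Y.loc y, a ∈ A) → Y.IsPt y' →
      (∀ a ∈ Y.loc y', a ∈ A) → D.eq y / D.eq y' ∈ A := by
    intro y y' hy hyA hy' hyA'
    have h1 := D.ratio_mem (c := Y.z) isPt_z A hA.1 hy hy' (spec_z hy) (spec_z hy')
      (fun a ha => by rw [ev_z]; exact hyA a ha) (fun a ha => by rw [ev_z]; exact hyA' a ha)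
    have h2 := h1.2
    rwa [ev_z] at h2
  exact k3a_ord_eq hA (D.eq_ne_zero _ h0.1) (D.eq_ne_zero _ hy) (key _ _ h0.1 h0.2 hy hyA)
    (key _ _ hy hyA h0.1 h0.2)

/-- Finitely many functions give the orders of `D` along all `A` (`CaDiv.exists_finite`). -/
theorem exists_ordDiv_finite (D : Y.CaDiv) :
    ∃ Φ : Finset Y.K, (∀ φ ∈ Φ, φ ≠ 0) ∧
      ∀ A : ValuationSubring Y.K, IsDVRof k A → ∃ φ ∈ Φ, ordDiv D A = ord A φ := by
  obtain ⟨s, hs, hs'⟩ := D.exists_finite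
  refine ⟨s.image D.eq, ?_, ?_⟩
  · intro φ hφ
    obtain ⟨y, hy, rfl⟩ := Finset.mem_image.1 hφ
    exact D.eq_ne_zero y (hs y hy)
  · intro A hA
    obtain ⟨y', hy', hyA⟩ := exists_centre_z A hA.1
    obtain ⟨y, hy, h1, h2⟩ := hs' y' hy'
    refine ⟨D.eq y, Finset.mem_image_of_mem _ hy, ?_⟩
    rw [ordDiv_eq D hA hy' hyA]
    exact k3a_ord_eq hA (D.eq_ne_zero _ hy') (D.eq_ne_zero _ (hs y hy)) (hyA _ h1) (hyA _ h2)

omit [IsAlgClosed k] [CharZero k] in
/-- Compactness: local exponents can be chosen uniformly.  For `y` with exponent `m` the three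
conditions `R.eq y' ~ R.eq y`, `E.eq y' ~ E.eq y` (`CaDiv.exists_nhd`),
`R.eq y ^ m * E.eq y ∈ loc y'` (`exists_nhd`) hold in a neighbourhood of `y` (`exists_common`); take
a finite cover (`exists_finite_cover`) and the maximum of the exponents. -/
theorem exists_uniform (R E : Y.CaDiv) (hR : ∀ y : Y.ι → k, Y.IsPt y → R.eq y ∈ Y.loc y)
    (h : ∀ y : Y.ι → k, Y.IsPt y → ∃ m : ℕ, R.eq y ^ m * E.eq y ∈ Y.loc y) :
    ∃ m : ℕ, ∀ y : Y.ι → k, Y.IsPt y → R.eq y ^ m * E.eq y ∈ Y.loc y := by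
  have key : ∀ y : Y.ι → k, Y.IsPt y → ∃ (m : ℕ) (H : MvPolynomial Y.ι k), aeval y H ≠ 0 ∧
      ∀ y' : Y.ι → k, Y.IsPt y' → aeval y' H ≠ 0 → R.eq y' ^ m * E.eq y' ∈ Y.loc y' := by
    intro y hy
    obtain ⟨m, hm⟩ := h y hy
    obtain ⟨d1, H1, -, hH1, h1⟩ := R.exists_nhd hy
    obtain ⟨d2, H2, -, hH2, h2⟩ := E.exists_nhd hy
    obtain ⟨d3, H3, -, hH3, h3⟩ := exists_nhd hy hm
    refine ⟨m, H1 * H2 * H3, ?_, fun y' hy' h0 => ?_⟩
    · rw [map_mul, map_mul]
      exact mul_ne_zero (mul_ne_zero hH1 hH2) hH3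
    · rw [map_mul, map_mul] at h0
      have e1 := (h1 y' hy' (left_ne_zero_of_mul (left_ne_zero_of_mul h0))).1
      have e2 := (h2 y' hy' (right_ne_zero_of_mul (left_ne_zero_of_mul h0))).1
      have e3 := h3 k y' (right_ne_zero_of_mul h0)
      have hR0 := R.eq_ne_zero y hy
      have hE0 := E.eq_ne_zero y hy
      have e4 : R.eq y' ^ m * E.eq y' =
          (R.eq y' / R.eq y) ^ m * (E.eq y' / E.eq y) * (R.eq y ^ m * E.eq y) := by
        rw [div_pow]
        field_simp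
      rw [e4]
      exact mul_mem (mul_mem (pow_mem e1 m) e2) e3
  choose! m H hH hm using key
  obtain ⟨s, hs, hs'⟩ := exists_finite_cover H hH
  refine ⟨s.sup m, fun y' hy' => ?_⟩
  obtain ⟨y, hy, h1⟩ := hs' y' hy'
  have h2 := hm y (hs y hy) y' hy' h1
  have h3 : m y ≤ s.sup m := Finset.le_sup hy
  have h4 : R.eq y' ^ s.sup m * E.eq y' =
      R.eq y' ^ (s.sup m - m y) * (R.eq y' ^ m y * E.eq y') := by
    rw [← mul_assoc, ← pow_add, Nat.sub_add_cancel h3]
  rw [h4]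
  exact mul_mem (pow_mem (hR y' hy') _) h2

end

end MP9a7843
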