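import Pool.Agent.Lib.MP_9a7843_ag_A.Exports
import Pool.Agent.Lib.MP_9a7843_ag_X.Dv
import Pool.Agent.Lib.MP_9a7843_ag_V.K3A
import Pool.Agent.Lib.MP_9a7843_ag_V.RamA

/-!
# MP_9a7843_ag, block V, module K3B: the divisors a ξ + b H and the class lemma
-/

noncomputable section

open MvPolynomial Classical

namespace MP9a7843

open Pool.Agent.MP9a7843 Pool.Agent.MP9a7843.ProjVar

universe u

variable {k : Type u} [Field k] [IsAlgClosed k] [CharZero k]

section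

variable {Y : ProjVar k} {f : Hom Y (XX k)}

/-- The divisor `a ξ + b H` on `X`. -/
def abDiv (k : Type u) [Field k] (a b : ℤ) : (XX k).CaDiv :=
  ((XiDiv k).zsmul a).add ((HDiv k).zsmul b)

omit [IsAlgClosed k] [CharZero k] in
private theorem k3b_zpow {y : Y.ι → k} {a : Y.K} (ha : Y.UnitAt y a) (n : ℤ) :
    Y.UnitAt y (a ^ n) := by
  cases n with
  | ofNat m =>
    refine ⟨?_, ?_⟩
    · rw [Int.ofNat_eq_natCast, zpow_natCast]
      exact pow_mem ha.1 m
    · rw [Int.ofNat_eq_natCast, zpow_natCast, ← inv_pow]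
      exact pow_mem ha.2 m
  | negSucc m =>
    refine ⟨?_, ?_⟩
    · rw [zpow_negSucc, ← inv_pow]
      exact pow_mem ha.2 (m + 1)
    · rw [zpow_negSucc, inv_inv]
      exact pow_mem ha.1 (m + 1)

omit [CharZero k] in
private theorem k3b_emb (hd : f.Dominant) {y : Y.ι → k} (hy : Y.IsPt y) {a : (XX k).K}
    (ha : (XX k).UnitAt (f.app y) a) : Y.UnitAt y (hd.emb a) := by
  refine ⟨(f.ev_coord_mem hy ha.1).2.1, ?_⟩
  rw [← map_inv₀]
  exact (f.ev_coord_mem hy ha.2).2.1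

omit [CharZero k] in
private theorem k3b_coord (hd : f.Dominant) {y : Y.ι → k} (hy : Y.IsPt y) {I : (XX k).ι}
    (hc : f.app y I ≠ 0) : f.coord I ≠ 0 := by
  have hz : (XX k).z I ≠ 0 := z_ne_zero (f.isPt_app hy) hc
  intro h
  have h2 := hd 1 (X I : MvPolynomial (XX k).ι k) (isHomogeneous_X _ _)
    (by rw [aeval_X]; exact h)
  rw [aeval_X] at h2
  exact hz h2

/-- The coordinates `((0,0,0), P)` and `(A, (0,1))` are not zero if `(A, P)` is not. -/
private theorem k3b_xi (hd : f.Dominant) {y : Y.ι → k} (hy : Y.IsPt y)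
    {A : Fin 10 × Fin 10 × Fin 10} {P : Fin 10 × Fin 10} (hc : f.app y (A, P) ≠ 0) :
    f.coord ((0, 0, 0), P) / f.coord (A, P) ≠ 0 ∧ f.coord (A, (0, 1)) / f.coord (A, P) ≠ 0 := by
  have hz : (XX k).z (A, P) ≠ 0 := z_ne_zero (f.isPt_app hy) hc
  have hcc := k3b_coord hd hy hc
  obtain ⟨h1, h2⟩ := z_xi_ne hz
  have e : ∀ I : Idx, hd.emb ((XX k).z I / (XX k).z (A, P)) = f.coord I / f.coord (A, P) :=
    fun I => ev_coord_div f.isPt I hcc
  rw [← e, ← e]
  exact ⟨(map_ne_zero _).2 (div_ne_zero h1 hz), (map_ne_zero _).2 (div_ne_zero h2 hz)⟩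

/-- The local equation of `f^* (a ξ + b H)` at `y`, in terms of the cell `(i, j, m)` of `f(y)`: up to
a unit it is `(coord_((0,0,0),(i,j)) / coord_c)^a * (coord_(c,(0,1)) / coord_c)^b`
(`XiDiv_unit`, `HDiv_unit`, `ev_coord_mem`, `hd.emb` of a quotient of coordinates). -/
theorem pull_abDiv_unit (hd : f.Dominant) (a b : ℤ) {y : Y.ι → k} (hy : Y.IsPt y)
    {i j : Fin 10} {m : Fin 4} (hc : f.app y (cellIdx i j m) ≠ 0) :
    Y.UnitAt y ((hd.pull (abDiv k a b)).eq y /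
      ((f.coord ((0, 0, 0), (i, j)) / f.coord (cellIdx i j m)) ^ a *
        (f.coord (cubIdx i j m, (0, 1)) / f.coord (cellIdx i j m)) ^ b)) := by
  have hpt := f.isPt_app hy
  have hcc := k3b_coord hd hy hc
  have e : ∀ I : Idx, hd.emb ((XX k).z I / (XX k).z (cellIdx i j m)) =
      f.coord I / f.coord (cellIdx i j m) := fun I => ev_coord_div f.isPt I hcc
  have h1 := k3b_emb hd hy (XiDiv_unit hpt hc)
  have h2 := k3b_emb hd hy (HDiv_unit hpt hc)
  rw [map_div₀, e] at h1 h2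
  have h3 : (hd.pull (abDiv k a b)).eq y =
      hd.emb ((XiDiv k).eq (f.app y)) ^ a * hd.emb ((HDiv k).eq (f.app y)) ^ b := by
    change hd.emb ((XiDiv k).eq (f.app y) ^ a * (HDiv k).eq (f.app y) ^ b) = _
    rw [map_mul, map_zpow₀, map_zpow₀]
  rw [h3, mul_div_mul_comm, ← div_zpow, ← div_zpow]
  exact (k3b_zpow h1 a).mul (k3b_zpow h2 b)

/-- The first step of the decomposition: by the class lemma there are `a`, `b`, `φ` such that the
divisor `E = D - f^*(a ξ + b H) - div φ` has order `0` along all `A ∈ VSet` : for `loc y ⊂ A`, both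
`E.eq y` and its inverse are in `A`.

Proof.  `ClassLemma` for `n = ordDiv D` and the finite set of `exists_ordDiv_finite`.  For
`A ∈ VSet` and `y` with `loc y ⊂ A` let `(i, j, m)` be a cell of `f(y)`; its coordinates are in
`loc y ⊂ A` (`cellCoord_mem`), so the formula of the class lemma applies, and
`ord A (D.eq y) = ordDiv D A` (`ordDiv_eq`), `pull_abDiv_unit`. -/
theorem exists_abDiv (hcl : ClassLemma k (fun I : Idx => f.coord I)) (hd : f.Dominant)
    (D : Y.CaDiv) : ∃ (a b : ℤ) (φ : Y.K) (hφ : φ ≠ 0),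
      ∀ A ∈ VSet k (fun I : Idx => f.coord I), ∀ y : Y.ι → k, Y.IsPt y →
        (∀ x ∈ Y.loc y, x ∈ A) →
        (D.add ((hd.pull (abDiv k a b)).add (CaDiv.prin φ hφ)).neg).eq y ∈ A ∧
        ((D.add ((hd.pull (abDiv k a b)).add (CaDiv.prin φ hφ)).neg).eq y)⁻¹ ∈ A := by
  obtain ⟨Φ, hΦ, hfin⟩ := exists_ordDiv_finite D
  obtain ⟨a, b, φ, hφ, hform⟩ := hcl (ordDiv D) Φ hΦ fun A hA => hfin A hA.1
  refine ⟨a, b, φ, hφ, fun A hA y hy hyA => ?_⟩
  obtain ⟨i, j, m, hij, hc⟩ := exists_cell_pt (f.isPt_app hy)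
  have hcc := k3b_coord hd hy hc
  have hD := hA.1
  have h1 := hform A hA i j m hij hcc fun s => hyA _ (cellCoord_mem hd hy hc s)
  rw [ordDiv_eq D hD hy hyA] at h1
  obtain ⟨hx1, hx2⟩ := k3b_xi hd hy (A := cubIdx i j m) (P := (i, j)) hc
  have hD0 := D.eq_ne_zero y hy
  have hP0 := (hd.pull (abDiv k a b)).eq_ne_zero y hy
  have hu := pull_abDiv_unit hd a b hy hc
  have hx3 : (f.coord ((0, 0, 0), (i, j)) / f.coord (cellIdx i j m)) ^ a ≠ 0 :=
    zpow_ne_zero _ hx1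
  have hx4 : (f.coord (cubIdx i j m, (0, 1)) / f.coord (cellIdx i j m)) ^ b ≠ 0 :=
    zpow_ne_zero _ hx2
  have h2 : ord A ((hd.pull (abDiv k a b)).eq y) =
      a * ord A (f.coord ((0, 0, 0), (i, j)) / f.coord (cellIdx i j m)) +
        b * ord A (f.coord (cubIdx i j m, (0, 1)) / f.coord (cellIdx i j m)) := by
    have h3 := (hD.ord_eq_zero_iff (div_ne_zero hP0 (mul_ne_zero hx3 hx4))).2
      ((val_eq_one_iff (div_ne_zero hP0 (mul_ne_zero hx3 hx4))).2
        ⟨hyA _ hu.1, hyA _ hu.2⟩)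
    rw [hD.ord_div hP0 (mul_ne_zero hx3 hx4), hD.ord_mul hx3 hx4, hD.ord_zpow,
      hD.ord_zpow] at h3
    linarith
  have hE0 : (D.add ((hd.pull (abDiv k a b)).add (CaDiv.prin φ hφ)).neg).eq y ≠ 0 :=
    CaDiv.eq_ne_zero _ y hy
  rw [← val_eq_one_iff hE0, ← hD.ord_eq_zero_iff hE0]
  change ord A (D.eq y * ((hd.pull (abDiv k a b)).eq y * φ)⁻¹) = 0
  rw [hD.ord_mul hD0 (inv_ne_zero (mul_ne_zero hP0 hφ)), hD.ord_inv, hD.ord_mul hP0 hφ, h1, h2]
  ring

end

end MP9a7843
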