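import Pool.Agent.Lib.MP_9a7843_ag.Null

/-!
# MP_9a7843_ag, block V, module Normal: smooth local rings are integrally closed
-/

noncomputable section

open Classical

namespace MP9a7843

open Pool.Agent.MP9a7843 Pool.Agent.MP9a7843.ProjVar

universe u

/-- A domain `S` which is etale over a polynomial ring `P = k[y_1, …, y_n]` over a field is
integrally closed.

Proof.  Let `E = FractionRing P`.  `P` is integrally closed (UFD), so
`integralClosure P E = ⊥` and `TensorProduct.toIntegralClosure_bijective_of_smooth` (`R = P`,
`B = E`) says that the image of `S` in `S ⊗[P] E` is integrally closed in `S ⊗[P] E`.  `S` is flat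
over `P` (etale) and a nonzero domain, so `P → S` is injective, and `S ⊗[P] E` is the localisation
of `S` at the image of the nonzero elements of `P`, so it is a domain, and `S → S ⊗[P] E` is
injective.  It is etale over the field `E`, so finite over `E`
(`Algebra.FormallyUnramified.finite_of_free` or `Algebra.Etale.iff_exists_algEquiv_prod`), and a
domain that is finite over a field is a field.  Hence `S ⊗[P] E` is the field of fractions of
`S`. -/
theorem isIntegrallyClosed_of_etale {k : Type u} [Field k] {n : ℕ} {S : Type u} [CommRing S]
    [IsDomain S] [Algebra (MvPolynomial (Fin n) k) S] [Algebra.Etale (MvPolynomial (Fin n) k) S] :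
    IsIntegrallyClosed S := by
  have hflat : Module.Flat (MvPolynomial (Fin n) k) S := inferInstance
  have hinj : Function.Injective (algebraMap (MvPolynomial (Fin n) k) S) :=
    FaithfulSMul.algebraMap_injective _ _
  have hM : Algebra.algebraMapSubmonoid S (nonZeroDivisors (MvPolynomial (Fin n) k)) ≤
      nonZeroDivisors S := by
    rintro _ ⟨a, ha, rfl⟩
    rw [mem_nonZeroDivisors_iff_ne_zero]
    intro h
    exact (mem_nonZeroDivisors_iff_ne_zero.1 ha) (hinj (by rw [map_zero]; exact h))
  let E := FractionRing (MvPolynomial (Fin n) k)
  have hloc : IsLocalization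
      (Algebra.algebraMapSubmonoid S (nonZeroDivisors (MvPolynomial (Fin n) k)))
      (TensorProduct (MvPolynomial (Fin n) k) S E) := inferInstance
  have hdom : IsDomain (TensorProduct (MvPolynomial (Fin n) k) S E) :=
    IsLocalization.isDomain_of_le_nonZeroDivisors _ hM
  let e : TensorProduct (MvPolynomial (Fin n) k) E S ≃ₐ[MvPolynomial (Fin n) k]
      TensorProduct (MvPolynomial (Fin n) k) S E := Algebra.TensorProduct.comm _ _ _
  have hdom' : IsDomain (TensorProduct (MvPolynomial (Fin n) k) E S) :=
    e.toRingEquiv.toMulEquiv.isDomain _
  have het : Algebra.Etale E (TensorProduct (MvPolynomial (Fin n) k) E S) := inferInstance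
  have hfin : Module.Finite E (TensorProduct (MvPolynomial (Fin n) k) E S) :=
    Algebra.FormallyUnramified.finite_of_free _ _
  have hf' : IsField (TensorProduct (MvPolynomial (Fin n) k) E S) :=
    isField_of_isIntegral_of_isField' (Field.toIsField E)
  have hf : IsField (TensorProduct (MvPolynomial (Fin n) k) S E) :=
    e.symm.toRingEquiv.toMulEquiv.isField hf'
  have hfr : IsFractionRing S (TensorProduct (MvPolynomial (Fin n) k) S E) := by
    refine IsLocalization.of_le _ _ hM fun r hr => ?_
    have h1 : algebraMap S (TensorProduct (MvPolynomial (Fin n) k) S E) r ≠ 0 := by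
      intro h
      refine (mem_nonZeroDivisors_iff_ne_zero.1 hr) (IsLocalization.injective
        (TensorProduct (MvPolynomial (Fin n) k) S E) hM ?_)
      rw [map_zero]
      exact h
    obtain ⟨b, hb⟩ := hf.mul_inv_cancel h1
    exact IsUnit.of_mul_eq_one b hb
  have key : ∀ z : TensorProduct (MvPolynomial (Fin n) k) S
      (integralClosure (MvPolynomial (Fin n) k) E), ∃ s : S,
      ((TensorProduct.toIntegralClosure (MvPolynomial (Fin n) k) S E z :
        integralClosure S (TensorProduct (MvPolynomial (Fin n) k) S E)) :
        TensorProduct (MvPolynomial (Fin n) k) S E) = algebraMap S _ s := by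
    intro z
    induction z with
    | zero => exact ⟨0, by simp⟩
    | add a b ha hb =>
      obtain ⟨s, hs⟩ := ha
      obtain ⟨t, ht⟩ := hb
      exact ⟨s + t, by rw [map_add, map_add, ← hs, ← ht]; rfl⟩
    | tmul s y =>
      obtain ⟨p, hp⟩ := IsIntegrallyClosed.isIntegral_iff.1 y.2
      refine ⟨p • s, ?_⟩
      have h1 : ((TensorProduct.toIntegralClosure (MvPolynomial (Fin n) k) S E
          (TensorProduct.tmul _ s y) :
          integralClosure S (TensorProduct (MvPolynomial (Fin n) k) S E)) :
          TensorProduct (MvPolynomial (Fin n) k) S E) = TensorProduct.tmul _ s (y : E) := rfl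
      rw [h1, ← hp, Algebra.TensorProduct.algebraMap_apply, Algebra.algebraMap_self,
        RingHom.id_apply, TensorProduct.smul_tmul, Algebra.algebraMap_eq_smul_one]
  rw [isIntegrallyClosed_iff (TensorProduct (MvPolynomial (Fin n) k) S E)]
  intro x hx
  obtain ⟨z, hz⟩ := (TensorProduct.toIntegralClosure_bijective_of_smooth
    (R := MvPolynomial (Fin n) k) (S := S) (B := E)).2 ⟨x, hx⟩
  obtain ⟨s, hs⟩ := key z
  rw [hz] at hs
  exact ⟨s, hs.symm⟩

/-- Let `A` be a domain of finite type over a field `k` and `p` a prime ideal of `A` such that
`A_p` is formally smooth over `k`.  Then `A_p` is integrally closed.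

Proof.  `Algebra.IsSmoothAt k p` holds; `Algebra.IsSmoothAt.exists_isStandardEtale_mvPolynomial`
gives `f ∉ p` and `n` such that `A_f` is (standard) etale over `MvPolynomial (Fin n) k`, so `A_f` is
integrally closed by `isIntegrallyClosed_of_etale`; `A_p` is a localisation of `A_f`
(`isIntegrallyClosed_of_isLocalization`, `IsLocalization.isLocalization_isLocalization_atPrime...`
or: an element `x` of the field of fractions that is integral over `A_p`: a multiple `s x`,
`s ∈ A ∖ p`, is integral over `A_f`). -/
theorem isIntegrallyClosed_of_smooth {k : Type u} [Field k] {A : Type u} [CommRing A] [IsDomain A]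
    [Algebra k A] [Algebra.FiniteType k A] (p : Ideal A) [p.IsPrime]
    [Algebra.FormallySmooth k (Localization.AtPrime p)] :
    IsIntegrallyClosed (Localization.AtPrime p) := by
  have hfp : Algebra.FinitePresentation k A :=
    Algebra.FinitePresentation.of_finiteType.1 inferInstance
  have hsm : Algebra.IsSmoothAt k p := inferInstance
  obtain ⟨f, hfp, n, halg, htow, hst⟩ :=
    Algebra.IsSmoothAt.exists_isStandardEtale_mvPolynomial (R := k) (p := p)
  have hf0 : f ≠ 0 := fun h => hfp (h ▸ p.zero_mem)
  have hle : Submonoid.powers f ≤ nonZeroDivisors A :=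
    powers_le_nonZeroDivisors_of_noZeroDivisors hf0
  have hle' : Submonoid.powers f ≤ p.primeCompl := by
    rw [Submonoid.powers_le]
    exact hfp
  have hdom : IsDomain (Localization.Away f) := IsLocalization.isDomain_of_le_nonZeroDivisors _ hle
  have het : Algebra.Etale (MvPolynomial (Fin n) k) (Localization.Away f) := inferInstance
  have hic : IsIntegrallyClosed (Localization.Away f) :=
    isIntegrallyClosed_of_etale (k := k) (n := n)
  let := IsLocalization.localizationAlgebraOfSubmonoidLe (Localization.Away f)
    (Localization.AtPrime p) (Submonoid.powers f) p.primeCompl hle'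
  have := IsLocalization.localization_isScalarTower_of_submonoid_le (Localization.Away f)
    (Localization.AtPrime p) (Submonoid.powers f) p.primeCompl hle'
  have hl := IsLocalization.isLocalization_of_submonoid_le (Localization.Away f)
    (Localization.AtPrime p) (Submonoid.powers f) p.primeCompl hle'
  refine isIntegrallyClosed_of_isLocalization (R := Localization.Away f) _
    (p.primeCompl.map (algebraMap A (Localization.Away f))) ?_
  rintro _ ⟨a, ha, rfl⟩
  rw [mem_nonZeroDivisors_iff_ne_zero]
  intro h
  refine ha ?_
  have h1 : a = 0 := IsLocalization.injective (Localization.Away f) hle (by rw [map_zero]; exact h)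
  rw [h1]
  exact p.zero_mem

/-- C5: the local rings of a smooth projective variety are integrally closed.
(`isLocalization_loc`, `finiteType_affRing`: `loc y` is isomorphic, as an algebra over the affine
ring, to `Localization.AtPrime (primeAt hy hj)`; transport.) -/
theorem isIntegrallyClosed_loc {k : Type u} [Field k] {Y : ProjVar k} (hY : Y.Smooth)
    {y : Y.ι → k} (hy : Y.IsPt y) : IsIntegrallyClosed (Y.loc y) := by
  obtain ⟨j, hj⟩ := hy.1
  have := finiteType_affRing (Y := Y) j
  let := (Subalgebra.inclusion (affRing_le_loc (Y := Y) hj)).toRingHom.toAlgebra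
  have : IsLocalization.AtPrime (Y.loc y) (primeAt hy hj) := isLocalization_loc hy hj
  have : IsScalarTower k (Y.affRing j) (Y.loc y) := IsScalarTower.of_algebraMap_eq fun _ => rfl
  have : Algebra.FormallySmooth k (Y.loc y) := hY y hy
  let e : Y.loc y ≃ₐ[Y.affRing j] Localization.AtPrime (primeAt hy hj) :=
    IsLocalization.algEquiv (primeAt hy hj).primeCompl _ _
  have : Algebra.FormallySmooth k (Localization.AtPrime (primeAt hy hj)) :=
    Algebra.FormallySmooth.of_equiv (e.restrictScalars k)
  have := isIntegrallyClosed_of_smooth (k := k) (primeAt hy hj)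
  exact IsIntegrallyClosed.of_equiv e.symm.toRingEquiv

end MP9a7843
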