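import Pool.Agent.Lib.MP_9a7843_ag_V.RamA

/-!
# MP_9a7843_ag, block V, module RamB: the ramification function and its effectivity
-/

noncomputable section

open MvPolynomial Classical KaehlerDifferential

open scoped KaehlerDifferential

namespace MP9a7843

open Pool.Agent.MP9a7843 Pool.Agent.MP9a7843.ProjVar

universe u

section

variable {k : Type u} [Field k] [IsAlgClosed k] [CharZero k] {Y : ProjVar k} {f : Hom Y (XX k)}

/-! ### The ramification function -/

/-- The local equation at `y` of the ramification divisor. -/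
def ramEq (hd : f.Dominant) (KX : (XX k).CaDiv) (KY : Y.CaDiv) (g : Y.K) (y : Y.ι → k) : Y.K :=
  g * (KY.eq y / hd.emb (KX.eq (f.app y)))

/-- The properties of the ramification divisor that are used: it is effective; it is trivial along
valuation rings of extensions of `K(Y)` that are etale over `X`; and localisations of `loc y` at
which it is trivial are etale over `X`. -/
structure RamProp (hd : f.Dominant) (KX : (XX k).CaDiv) (KY : Y.CaDiv) (g : Y.K) : Prop where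
  mem : ∀ y, Y.IsPt y → ramEq hd KX KY g y ∈ Y.loc y
  etale : ∀ (L : Type u) [Field L] [Algebra k L] (i : Y.K →ₐ[k] L),
    Algebra.IsAlgebraic i.fieldRange L → ∀ A : ValuationSubring L,
    (∀ r : k, algebraMap k L r ∈ A) → ∀ y, Y.IsPt y → (∀ a ∈ Y.loc y, i a ∈ A) →
    ∀ (a b : Fin 10) (m : Fin 4), f.app y (cellIdx a b m) ≠ 0 →
    EtaleAt k A (cellCoord (fun I : Idx => i (f.coord I)) a b m) →
    (i (ramEq hd KX KY g y))⁻¹ ∈ A
  loc : ∀ y, Y.IsPt y → ∀ A : ValuationSubring Y.K, (∀ a ∈ Y.loc y, a ∈ A) →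
    (∀ a ∈ A, ∃ b ∈ Y.loc y, ∃ d ∈ Y.loc y, d⁻¹ ∈ A ∧ a = b / d) →
    (ramEq hd KX KY g y)⁻¹ ∈ A → ∀ (a b : Fin 10) (m : Fin 4), f.app y (cellIdx a b m) ≠ 0 →
    EtaleAt k A (cellCoord (fun I : Idx => f.coord I) a b m)

/-- Data fixed for the proof of `exists_ram`: bases `BX`, `BY` of the differentials of `K(X)` and
`K(Y)` given by the main cell, and the functions `sX`, `sY` of `exists_jacS`. -/
structure RamData (hd : f.Dominant) (KX : (XX k).CaDiv) (KY : Y.CaDiv) where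
  BX : Module.Basis (CellVar 0 1 0) (XX k).K (Ω[(XX k).K⁄k])
  BY : Module.Basis (CellVar 0 1 0) Y.K (Ω[Y.K⁄k])
  sX : (XX k).K
  sY : Y.K
  hX : IsDB BX (cellCoord (XX k).z 0 1 0)
  hY : IsDB BY (hd.emb ∘ cellCoord (XX k).z 0 1 0)
  sX_ne : sX ≠ 0
  sY_ne : sY ≠ 0
  jX : ∀ p, (XX k).IsPt p → jacS BX p = Submodule.span ((XX k).loc p) {sX / KX.eq p}
  jY : ∀ y, Y.IsPt y → jacS BY y = Submodule.span (Y.loc y) {sY / KY.eq y}

/-- `exists_isDB` and `exists_isDB_map` for the bases, `exists_jacS` for `sX`, `sY`. -/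
theorem exists_ramData (hd : f.Dominant) (hg : f.GenFinite) {KX : (XX k).CaDiv} {KY : Y.CaDiv}
    (hKX : KX.IsCanonical) (hKY : KY.IsCanonical) : Nonempty (RamData hd KX KY) := by
  obtain ⟨eX⟩ := exists_dimEquiv k
  obtain ⟨eY⟩ := exists_dimEquivY hd hg
  obtain ⟨BX, hX⟩ := exists_isDB (cellCoord (XX k).z 0 1 0) isGenX_XX.indep (by
    rw [isGenX_XX.gen]
    exact ⟨fun a => isAlgebraic_algebraMap
      (⟨a, IntermediateField.mem_top⟩ : (⊤ : IntermediateField k (XX k).K))⟩)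
  obtain ⟨BY, hY⟩ := exists_isDB_map (cellCoord (XX k).z 0 1 0) isGenX_XX.indep isGenX_XX.gen
    hd.emb (isAlgebraic_emb hd hg)
  obtain ⟨sX, hsX, jX⟩ := exists_jacS eX BX hKX
  obtain ⟨sY, hsY, jY⟩ := exists_jacS eY BY hKY
  exact ⟨⟨BX, BY, sX, sY, hX, hY, hsX, hsY, jX, jY⟩⟩

/-- `g = f^# sX / sY`, so that `ramEq y = f^#(sX / KX(f y)) / (sY / KY(y))`. -/
theorem ramEq_eq {hd : f.Dominant} {KX : (XX k).CaDiv} {KY : Y.CaDiv} (D : RamData hd KX KY)
    {y : Y.ι → k} (hy : Y.IsPt y) :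
    ramEq hd KX KY (hd.emb D.sX / D.sY) y =
      hd.emb (D.sX / KX.eq (f.app y)) / (D.sY / KY.eq y) := by
  unfold ramEq
  rw [map_div₀, div_div_div_eq, div_mul_div_comm, mul_comm D.sY]

/-- At a point `p` of the cell `(a, b, m)` of `X`, `sX / KX(p)` is a unit times the jacobian of the
coordinates of the cell: `jacS_eq` (with `loc_stable`, `stab_coord_mem`; the basis `d x^c` exists by
`exists_isDB`, `IsGenX.indep_cell`, `IsGenX.gen_cell`, reindexed by `e`) and `unitAt_of_span_eq`. -/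
theorem exists_unit_jac {hd : f.Dominant} {KX : (XX k).CaDiv} {KY : Y.CaDiv}
    (D : RamData hd KX KY) {p : (XX k).ι → k} (hp : (XX k).IsPt p) {a b : Fin 10} {m : Fin 4}
    (hc : p (cellIdx a b m) ≠ 0) (e : CellVar 0 1 0 ≃ CellVar a b m) :
    jac D.BX (cellCoord (XX k).z a b m ∘ e) ≠ 0 ∧
    ∃ w : (XX k).K, w ≠ 0 ∧ (XX k).UnitAt p w ∧
      D.sX / KX.eq p = w * jac D.BX (cellCoord (XX k).z a b m ∘ e) := by
  have hab : a ≠ b := ne_of_cell (rel_of_isPt hp) hc
  have h1 : Set.range (cellCoord (XX k).z a b m ∘ e) = Set.range (cellCoord (XX k).z a b m) :=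
    e.surjective.range_comp _
  obtain ⟨B', hB'⟩ := exists_isDB (cellCoord (XX k).z a b m ∘ e)
    ((isGenX_XX.indep_cell hab m).comp e e.injective) (by
      rw [h1, isGenX_XX.gen_cell hab m]
      exact ⟨fun a => isAlgebraic_algebraMap
        (⟨a, IntermediateField.mem_top⟩ : (⊤ : IntermediateField k (XX k).K))⟩)
  have hJ := jac_ne_zero D.BX B' hB'
  have hs : D.sX / KX.eq p ≠ 0 := div_ne_zero D.sX_ne (KX.eq_ne_zero p hp)
  have h2 := jacS_eq D.BX hB' (y := p) (fun s => stab_coord_mem hc (e s)) fun δ hδ =>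
    loc_stable hp hc δ fun s => by simpa using hδ (e.symm s)
  rw [D.jX p hp] at h2
  refine ⟨hJ, D.sX / KX.eq p / jac D.BX (cellCoord (XX k).z a b m ∘ e), div_ne_zero hs hJ,
    unitAt_of_span_eq hs hJ h2, ?_⟩
  rw [div_mul_cancel₀ _ hJ]

/-- Effectivity.  With `e`, `w` as in `exists_unit_jac` for `p = f(y)`:
`f^#(sX / KX(p)) = f^#(w) * jac BY (f^# x^c ∘ e)` (`jac_map`), the jacobian is in
`jacS BY y = loc y * (sY / KY(y))` because `f^# x^c_s ∈ loc y`, and `f^# w ∈ loc y`. -/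
theorem ram_mem {hd : f.Dominant} {KX : (XX k).CaDiv} {KY : Y.CaDiv} (D : RamData hd KX KY)
    {y : Y.ι → k} (hy : Y.IsPt y) : ramEq hd KX KY (hd.emb D.sX / D.sY) y ∈ Y.loc y := by
  have hp : (XX k).IsPt (f.app y) := f.isPt_app hy
  obtain ⟨a, b, m, hab, hc⟩ := exists_cell_pt hp
  obtain ⟨e⟩ := exists_cellEquiv hab m
  obtain ⟨hJ, w, hw0, hw, hs⟩ := exists_unit_jac D hp hc e
  have hY0 : D.sY / KY.eq y ≠ 0 := div_ne_zero D.sY_ne (KY.eq_ne_zero y hy)
  have h1 : hd.emb (jac D.BX (cellCoord (XX k).z a b m ∘ e)) ∈ jacS D.BY y := by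
    rw [← jac_map hd.emb D.hX D.hY]
    refine jac_mem_jacS D.BY fun s => ?_
    have h2 : (hd.emb ∘ cellCoord (XX k).z a b m ∘ e) s =
        cellCoord (fun I : Idx => f.coord I) a b m (e s) := emb_cellCoord hd a b m (e s)
    rw [h2]
    exact cellCoord_mem hd hy hc (e s)
  rw [D.jY y hy, Submodule.mem_span_singleton] at h1
  obtain ⟨r, hr⟩ := h1
  have h3 : (r : Y.K) * (D.sY / KY.eq y) =
      hd.emb (jac D.BX (cellCoord (XX k).z a b m ∘ e)) := hr
  rw [ramEq_eq D hy, hs, map_mul, ← h3, ← mul_assoc, mul_div_cancel_right₀ _ hY0]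
  exact mul_mem (f.ev_coord_mem hy hw.1).2.1 r.2

end

end MP9a7843
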