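import Pool.Agent.Lib.MP_9a7843_ag_V.KrullV
import Pool.Agent.Lib.MP_9a7843_ag_V.Normal
import Pool.Agent.Lib.MP_9a7843_ag_V.RamB

/-!
# MP_9a7843_ag, block V, module K3C: functions regular at all etale valuation rings are bounded by the ramification
-/

noncomputable section

open MvPolynomial Classical

namespace MP9a7843

open Pool.Agent.MP9a7843 Pool.Agent.MP9a7843.ProjVar

universe u

variable {k : Type u} [Field k] [IsAlgClosed k] [CharZero k]

section

variable {Y : ProjVar k} {f : Hom Y (XX k)}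

/-- A divisor which is trivial along all `A ∈ VSet` is bounded by multiples of the ramification
divisor at every point.

Proof.  Suppose `r = ramEq y`, `g ∈ K(Y)`, and `r^m g ∉ loc y` for all `m`.  `loc y` is noetherian
(`isNoetherianRing_loc`), integrally closed (`isIntegrallyClosed_loc`) with field of fractions `K(Y)`
(`exists_loc_div`); take `A` from `exists_dvr_of_pow`.  By `RamProp.loc` it is etale for the cells of
`f(y)` (`exists_cell_pt`, `Hom.isPt_app`), so `A ∈ VSet` (`f.coord c ≠ 0` because `f(y)_c ≠ 0`),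
and `g ∉ A`. -/
theorem exists_pow_mem (hY : Y.Smooth) (hd : f.Dominant) {KX : (XX k).CaDiv} {KY : Y.CaDiv}
    {g₀ : Y.K} (hg0 : g₀ ≠ 0) (hR : RamProp hd KX KY g₀) {y : Y.ι → k} (hy : Y.IsPt y) {g : Y.K}
    (hg : ∀ A ∈ VSet k (fun I : Idx => f.coord I), (∀ x ∈ Y.loc y, x ∈ A) → g ∈ A) :
    ∃ m : ℕ, ramEq hd KX KY g₀ y ^ m * g ∈ Y.loc y := by
  by_contra hcon
  push Not at hcon
  have hp : (XX k).IsPt (f.app y) := f.isPt_app hy
  have h0 : ramEq hd KX KY g₀ y ≠ 0 := by
    unfold ramEq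
    refine mul_ne_zero hg0 (div_ne_zero (KY.eq_ne_zero y hy) ?_)
    rw [Ne, map_eq_zero]
    exact KX.eq_ne_zero _ hp
  have hN : IsNoetherianRing (Y.loc y) := isNoetherianRing_loc hy
  have hI : IsIntegrallyClosed (Y.loc y) := isIntegrallyClosed_loc hY hy
  obtain ⟨A, hA1, hA2, hA3, hA4, hA5⟩ := exists_dvr_of_pow (Y.loc y) (exists_loc_div hy)
    (hR.mem y hy) h0 hcon
  obtain ⟨a, b, m, hab, hc⟩ := exists_cell_pt hp
  have hc' : f.coord (cellIdx a b m) ≠ 0 := by
    intro h1
    refine hc ?_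
    unfold Hom.app
    rw [h1, zero_div]
    exact ev_zero hy
  exact hA4 (hg A ⟨hA1, a, b, m, hab, hc', hR.loc y hy A hA2 hA5 hA3 a b m hc⟩ hA2)

end

end MP9a7843
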