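import Pool.Agent.Lib.MP_9a7843_ag_V.RamB

/-!
# MP_9a7843_ag, block V, module RamD: localisations with trivial ramification are etale
-/

noncomputable section

open MvPolynomial Classical KaehlerDifferential

open scoped KaehlerDifferential

namespace MP9a7843

open Pool.Agent.MP9a7843 Pool.Agent.MP9a7843.ProjVar

universe u

section

variable {k : Type u} [Field k] [IsAlgClosed k] [CharZero k] {Y : ProjVar k} {f : Hom Y (XX k)}

/-- Localisations at which the ramification is trivial are etale.  Let `B'` be the basis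
`d (f^# x^c) ∘ e` of `Ω[K(Y)/k]`.  For `a ∈ loc y`:
`jac BY (update (f^# x^c ∘ e) s a) = jac BY (f^# x^c ∘ e) * pder B' s a` (`jac_update`) is in
`jacS BY y = loc y * (sY / KY(y))`, hence (`exists_unit_jac`, `ramEq_eq`)
`pder B' s a ∈ loc y * (ramEq)⁻¹ ⊂ A`.  A derivation `δ` with `δ (f^# x^c) ⊂ A` is
`∑ pder B' s * δ(f^# x^c_s)` (`der_eq_sum`), so `δ a ∈ A` for `a ∈ loc y`, and for all elements
`b / d` of `A` by the quotient rule (`chg_der_div`). -/
theorem ram_loc {hd : f.Dominant} (hg : f.GenFinite) {KX : (XX k).CaDiv} {KY : Y.CaDiv}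
    (D : RamData hd KX KY) (y : Y.ι → k) (hy : Y.IsPt y) (A : ValuationSubring Y.K)
    (hA : ∀ a ∈ Y.loc y, a ∈ A)
    (hA' : ∀ a ∈ A, ∃ b ∈ Y.loc y, ∃ d ∈ Y.loc y, d⁻¹ ∈ A ∧ a = b / d)
    (hr : (ramEq hd KX KY (hd.emb D.sX / D.sY) y)⁻¹ ∈ A) (a b : Fin 10) (m : Fin 4)
    (hc : f.app y (cellIdx a b m) ≠ 0) :
    EtaleAt k A (cellCoord (fun I : Idx => f.coord I) a b m) := by
  have hp : (XX k).IsPt (f.app y) := f.isPt_app hy
  have hab : a ≠ b := ne_of_cell (rel_of_isPt hp) hc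
  obtain ⟨e⟩ := exists_cellEquiv hab m
  obtain ⟨hJ, w, hw0, hw, hs⟩ := exists_unit_jac D hp hc e
  have hY0 : D.sY / KY.eq y ≠ 0 := div_ne_zero D.sY_ne (KY.eq_ne_zero y hy)
  obtain ⟨x, hxd⟩ : ∃ x : CellVar 0 1 0 → Y.K, x = hd.emb ∘ cellCoord (XX k).z a b m ∘ e :=
    ⟨_, rfl⟩
  have hxe : ∀ s, x s = cellCoord (fun I : Idx => f.coord I) a b m (e s) := by
    rw [hxd]
    exact fun s => emb_cellCoord hd a b m (e s)
  have hmap : jac D.BY x = hd.emb (jac D.BX (cellCoord (XX k).z a b m ∘ e)) := by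
    rw [hxd]
    exact jac_map hd.emb D.hX D.hY _
  clear hxd
  have hJY : jac D.BY x ≠ 0 := by
    rw [hmap]
    exact (map_ne_zero hd.emb).2 hJ
  obtain ⟨B', hB'⟩ := exists_isDB_of_jac D.BY _ hJY
  have hwe0 : hd.emb w ≠ 0 := (map_ne_zero hd.emb).2 hw0
  have hwe : hd.emb w ∈ A := hA _ (f.ev_coord_mem hy hw.1).2.1
  have hR : ramEq hd KX KY (hd.emb D.sX / D.sY) y =
      hd.emb w * jac D.BY x / (D.sY / KY.eq y) := by
    rw [ramEq_eq D hy, hs, map_mul, hmap]
  have hpd : ∀ s, ∀ c ∈ Y.loc y, pder B' s c ∈ A := by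
    intro s c hc'
    have h1 : jac D.BY x * pder B' s c ∈ jacS D.BY y := by
      rw [← jac_update D.BY B' hB' s c]
      refine jac_mem_jacS D.BY fun t => ?_
      unfold Function.update
      split_ifs with ht
      · subst ht
        exact hc'
      · rw [hxe]
        exact cellCoord_mem hd hy hc (e t)
    rw [D.jY y hy, Submodule.mem_span_singleton] at h1
    obtain ⟨r, hr'⟩ := h1
    have h3 : (r : Y.K) * (D.sY / KY.eq y) = jac D.BY x * pder B' s c := hr'
    have h4 : pder B' s c = (r : Y.K) * hd.emb w *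
        (ramEq hd KX KY (hd.emb D.sX / D.sY) y)⁻¹ := by
      rw [hR, inv_div, mul_div_assoc', eq_div_iff (mul_ne_zero hwe0 hJY)]
      calc pder B' s c * (hd.emb w * jac D.BY x)
          = hd.emb w * (jac D.BY x * pder B' s c) := by ring
        _ = hd.emb w * ((r : Y.K) * (D.sY / KY.eq y)) := by rw [h3]
        _ = (r : Y.K) * hd.emb w * (D.sY / KY.eq y) := by ring
    rw [h4]
    exact mul_mem (mul_mem (hA _ r.2) hwe) hr
  refine ⟨fun s => hA _ (cellCoord_mem hd hy hc s), fun δ hδ c hcA => ?_⟩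
  have hδloc : ∀ c ∈ Y.loc y, δ c ∈ A := by
    intro c hc'
    rw [der_eq_sum hB' δ c]
    refine sum_mem fun s _ => mul_mem (hpd s c hc') ?_
    rw [hxe]
    exact hδ (e s)
  obtain ⟨b', hb', d, hd', hdA, rfl⟩ := hA' c hcA
  exact chg_der_div (hA _ hb') (hA _ hd') hdA (hδloc _ hb') (hδloc _ hd')

end

end MP9a7843
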