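import Pool.Agent.Lib.MP_9a7843_ag_V.RamC
import Pool.Agent.Lib.MP_9a7843_ag_V.RamD

/-!
# MP_9a7843_ag, block V, module Ram: the ramification divisor of a dominant generically finite morphism
-/

noncomputable section

open MvPolynomial Classical KaehlerDifferential

open scoped KaehlerDifferential

namespace MP9a7843

open Pool.Agent.MP9a7843 Pool.Agent.MP9a7843.ProjVar

universe u

section

variable {k : Type u} [Field k] [IsAlgClosed k] [CharZero k] {Y : ProjVar k} {f : Hom Y (XX k)}

/-- The ramification divisor. -/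
theorem exists_ram (hd : f.Dominant) (hg : f.GenFinite) {KX : (XX k).CaDiv} {KY : Y.CaDiv}
    (hKX : KX.IsCanonical) (hKY : KY.IsCanonical) :
    ∃ g : Y.K, g ≠ 0 ∧ RamProp hd KX KY g := by
  obtain ⟨D⟩ := exists_ramData hd hg hKX hKY
  exact ⟨hd.emb D.sX / D.sY, div_ne_zero ((map_ne_zero _).2 D.sX_ne) D.sY_ne,
    fun y hy => ram_mem D hy, fun L _ _ i hi A hA y hy hyA a b m hc hE =>
      ram_etale hg D L i hi A hA y hy hyA a b m hc hE,
    fun y hy A hA hA' hr a b m hc => ram_loc hg D y hy A hA hA' hr a b m hc⟩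

/-- The local equations of the ramification divisor form a Cartier divisor:
`div g + K_Y - f^* K_X`. -/
theorem ramEq_caDiv (hd : f.Dominant) (KX : (XX k).CaDiv) (KY : Y.CaDiv) {g : Y.K} (hg : g ≠ 0)
    (y : Y.ι → k) :
    ramEq hd KX KY g y =
      ((CaDiv.prin g hg).add (KY.add (hd.pull KX).neg)).eq y := by
  unfold ramEq
  rw [div_eq_mul_inv]
  rfl

end

end MP9a7843
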