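import Pool.Agent.Lib.MP_9a7843_ag_X.Can
import Pool.Agent.Lib.MP_9a7843_ag_V.Big
import Pool.Agent.Lib.MP_9a7843_ag_V.Ram

/-!
# MP_9a7843_ag, block V, module Kind1: `a(Y, f^* L) ≤ 1`
-/

noncomputable section

open MvPolynomial Classical

namespace MP9a7843

open Pool.Agent.MP9a7843 Pool.Agent.MP9a7843.ProjVar

universe u

variable {k : Type u} [Field k] [IsAlgClosed k] [CharZero k] {Y : ProjVar k} {f : Hom Y (XX k)}

/-- `-K_X` is `4` times the hyperplane class on every curve (`canonical_XX`, `deg_linEquiv`,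
`deg_zsmul`). -/
theorem deg_canonical {KX : (XX k).CaDiv} (hKX : KX.IsCanonical) (C : (XX k).Curve) :
    ((XX k).deg C.c KX : ℝ) = -4 * ((XX k).deg C.c (XX k).hyperplane : ℝ) := by
  obtain ⟨φ, hφ, h⟩ := canonical_XX hKX
  have h1 : (XX k).deg C.c KX = (XX k).deg C.c ((XX k).hyperplane.zsmul (-4)) := by
    refine deg_linEquiv C.isCurveField C.isPt hφ fun y hy => ?_
    have h2 := h y hy
    rw [mul_comm] at h2
    exact h2
  rw [h1, deg_zsmul C.isCurveField C.isPt]
  push_cast
  ring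

/-- The class of `f^* (-K_X)` is `4` times the pull-back of the hyperplane class (`deg_canonical` for
`C.push f`, `deg_pull`). -/
theorem pullCls_canonical (hd : f.Dominant) {KX : (XX k).CaDiv} (hKX : KX.IsCanonical)
    (C : Y.Curve) :
    (-f.pullCls KX) C = 4 * (Y.deg C.c (hd.pull (XX k).hyperplane) : ℝ) := by
  have h1 := deg_canonical hKX (C.push f)
  change ((XX k).deg (f.app C.c) KX : ℝ) = -4 * ((XX k).deg (f.app C.c) (XX k).hyperplane : ℝ)
    at h1
  rw [deg_pull C.isCurveField C.isPt hd]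
  change -((XX k).deg (f.app C.c) KX : ℝ) = _
  rw [h1]
  ring

/-- The class of the ramification divisor `R = div g + K_Y - f^* K_X`. -/
theorem cls_ram (hd : f.Dominant) (KX : (XX k).CaDiv) (KY : Y.CaDiv) {g : Y.K} (hg : g ≠ 0) :
    ((CaDiv.prin g hg).add (KY.add (hd.pull KX).neg)).cls = -f.pullCls KX + KY.cls := by
  funext C
  change (Y.deg C.c ((CaDiv.prin g hg).add (KY.add (hd.pull KX).neg)) : ℝ) =
    -((XX k).deg (f.app C.c) KX : ℝ) + (Y.deg C.c KY : ℝ)
  rw [deg_add C.isCurveField C.isPt, deg_add C.isCurveField C.isPt,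
    deg_neg C.isCurveField C.isPt, deg_prin C.isCurveField C.isPt,
    deg_pull C.isCurveField C.isPt hd]
  push_cast
  ring

/-- `a(Y, f^* L) ≤ 1`: `f^* L` is big (`big_pull`) and `f^* L + K_Y` is the class of the effective
ramification divisor (`exists_ram`, `ramEq_caDiv`, `effClass_cls`, `EffClass.pseudoEff`,
`aInv_le_one`). -/
theorem aInv_pull_le (hd : f.Dominant) (hg : f.GenFinite) {KX : (XX k).CaDiv} {KY : Y.CaDiv}
    (hKX : KX.IsCanonical) (hKY : KY.IsCanonical) :
    Y.aInv KY.cls (-f.pullCls KX) ≤ 1 := by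
  obtain ⟨g, hg0, hR⟩ := exists_ram hd hg hKX hKY
  refine aInv_le_one (big_pull hd hg (r := 4) (by norm_num) (pullCls_canonical hd hKX)) ?_
  rw [← cls_ram hd KX KY hg0]
  refine (effClass_cls fun y hy => ?_).pseudoEff
  rw [← ramEq_caDiv hd KX KY hg0 y]
  exact hR.mem y hy

end MP9a7843
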