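import Pool.Agent.Lib.MP_9a7843_ag_A.Exports
import Pool.Agent.Lib.MP_9a7843_ag_V.Ram

/-!
# MP_9a7843_ag, block V, module Kind2: breaking maps of kind (ii) (positive Iitaka dimension)
-/

noncomputable section

open MvPolynomial Classical

namespace MP9a7843

open Pool.Agent.MP9a7843 Pool.Agent.MP9a7843.ProjVar

universe u

variable {k : Type u} [Field k] [IsAlgClosed k] [CharZero k] {Y : ProjVar k} {f : Hom Y (XX k)}

private theorem card_tVar : Fintype.card (TVar 0 1) = 19 := by
  have h1 : Fintype.card {l : Fin 10 // l ≠ 0} = 9 := by decide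
  have h2 : Fintype.card {l : Fin 10 // l ≠ 0 ∧ l ≠ 1} = 8 := by decide
  rw [Fintype.card_sum, Fintype.card_sum, Fintype.card_fin]
  omega

private theorem trdeg_KT (k : Type u) [Field k] : Algebra.trdeg k (KT k) = 19 := by
  have h0 : Algebra.IsAlgebraic (MvPolynomial (TVar 0 1) k) (KT k) :=
    IsLocalization.isAlgebraic _ (nonZeroDivisors _)
  have hb := (IsTranscendenceBasis.mvPolynomial (TVar 0 1) k).algebraMap_comp (A := KT k)
  have h1 := hb.lift_cardinalMk_eq_trdeg
  rw [Cardinal.mk_fintype, card_tVar] at h1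
  simpa using h1.symm

/-- `K_T` is algebraic over the image of `K(Y)`: both have transcendence degree `19` (a
transcendence basis of `K(Y)`, `exists_dimEquivY`, is mapped to an algebraically independent family
of `19` elements of `K_T`, and `trdeg K_T = 19` because `K_T` is the field of fractions of a
polynomial ring in `19` variables). -/
theorem isAlgebraic_KT (hd : f.Dominant) (hg : f.GenFinite) (i : Y.K →ₐ[k] KT k) :
    Algebra.IsAlgebraic i.fieldRange (KT k) := by
  have h0 := isAlgebraic_emb hd hg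
  have h1 : Algebra.trdeg k hd.emb.fieldRange + Algebra.trdeg hd.emb.fieldRange Y.K =
      Algebra.trdeg k Y.K := trdeg_add_eq k hd.emb.fieldRange
  have e : (XX k).K ≃ₐ[k] hd.emb.fieldRange := AlgEquiv.ofInjective hd.emb hd.emb.injective
  have h2 : Algebra.trdeg k (XX k).K = Algebra.trdeg k hd.emb.fieldRange := e.trdeg_eq
  have h3 : Algebra.trdeg k Y.K = 19 := by
    rw [← h1, trdeg_eq_zero (R := hd.emb.fieldRange) (A := Y.K), add_zero, ← h2,
      isGenX_XX.trdeg]
  have h4 : Algebra.trdeg k i.fieldRange + Algebra.trdeg i.fieldRange (KT k) =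
      Algebra.trdeg k (KT k) := trdeg_add_eq k i.fieldRange
  have e' : Y.K ≃ₐ[k] i.fieldRange := AlgEquiv.ofInjective i i.injective
  have h5 : Algebra.trdeg k Y.K = Algebra.trdeg k i.fieldRange := e'.trdeg_eq
  rw [trdeg_KT, ← h5, h3] at h4
  have h6 : Algebra.trdeg i.fieldRange (KT k) = 0 := by
    have h7 : (19 : Cardinal) + Algebra.trdeg i.fieldRange (KT k) = 19 + 0 := by
      rw [h4, add_zero]
    exact Cardinal.eq_of_add_eq_add_left h7 (by norm_num)
  exact trdeg_eq_zero_iff.1 h6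

/-- The coordinate `f.coord c` is not zero if `f(y)_c ≠ 0`. -/
theorem coord_ne_of_app {y : Y.ι → k} (hy : Y.IsPt y) {I : Idx} (h : f.app y I ≠ 0) :
    f.coord I ≠ 0 := by
  intro h0
  apply h
  change Y.ev y (f.coord I / _) = 0
  rw [h0, zero_div]
  exact ev_zero hy

/-- Let `A` be a valuation ring in `VSet k zT`, and `y` a closed point of `Y` with `i(loc y) ⊂ A`.
Then `A` is etale for the coordinates of every cell of `f(y)`.

Proof.  `i (f.coord I) = r * zT I`, so `cellCoord (i ∘ f.coord) = cellCoord zT` (`cellCoord_smul`).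
The coordinates of the cell are in `i(loc y) ⊂ A` (`cellCoord_mem`, `cellCoord_map`), so
`etaleAt_change` applies (`Rel zT`: `rel_zfun`). -/
theorem etale_of_VSet {i : Y.K →ₐ[k] KT k} {r : KT k} (hr : r ≠ 0)
    (hi : ∀ I, i (f.coord I) = r * zT k I) (hd : f.Dominant) {A : ValuationSubring (KT k)}
    (hA : A ∈ VSet k (zT k)) {y : Y.ι → k} (hy : Y.IsPt y) (hyA : ∀ a ∈ Y.loc y, i a ∈ A)
    (a b : Fin 10) (m : Fin 4) (hc : f.app y (cellIdx a b m) ≠ 0) :
    EtaleAt k A (cellCoord (fun I : Idx => i (f.coord I)) a b m) := by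
  obtain ⟨hdvr, a', b', m', hab', hc', hE⟩ := hA
  have hcoord : f.coord (cellIdx a b m) ≠ 0 := coord_ne_of_app hy hc
  have hz : (fun I : Idx => i (f.coord I)) = r • zT k := by
    funext I
    rw [hi I]
    rfl
  have hzc : zT k (cellIdx a b m) ≠ 0 := by
    intro h0
    have h1 := hi (cellIdx a b m)
    rw [h0, mul_zero] at h1
    exact (map_ne_zero i).2 hcoord h1
  have hx : ∀ s, cellCoord (zT k) a b m s ∈ A := by
    intro s
    have h1 := cellCoord_map (i : Y.K →+* KT k) (fun I : Idx => f.coord I) a b m s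
    have h2 : cellCoord (fun I : Idx => i (f.coord I)) a b m s =
        i (cellCoord (fun I : Idx => f.coord I) a b m s) := h1
    rw [hz, cellCoord_smul hr] at h2
    rw [h2]
    exact hyA _ (cellCoord_mem hd hy hc s)
  have h3 := etaleAt_change hdvr.1 (rel_zfun _ _ _) hc' hE hzc hx
  rw [hz, cellCoord_smul hr]
  exact h3

/-- Sections of multiples of the ramification divisor are constant.

Proof.  For `A ∈ VSet k zT` the valuation ring `A.comap i` of `K(Y)` contains `k`; let `y` be a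
closed point with `loc y ≤ A.comap i` (`exists_centre_z`), and `(a, b, m)` a cell of `f(y)`
(`exists_cell_pt`).  By `etale_of_VSet` and `RamProp.etale`, `(i (ramEq y))⁻¹ ∈ A`; hence
`i φ = i (φ * ramEq y ^ m) * ((i (ramEq y))⁻¹) ^ m ∈ A`.  So `i φ` is constant by `ExpConst`, and
`i` is injective. -/
theorem const_of_section (hconst : ExpConst k) (hT : EmbT k (fun I : Idx => f.coord I))
    (hd : f.Dominant) (hg : f.GenFinite) {KX : (XX k).CaDiv} {KY : Y.CaDiv} {g : Y.K} (hg0 : g ≠ 0)
    (hR : RamProp hd KX KY g) {m : ℕ} {φ : Y.K}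
    (hφ : ∀ y, Y.IsPt y → φ * ramEq hd KX KY g y ^ m ∈ Y.loc y) :
    ∃ c : k, φ = algebraMap k Y.K c := by
  obtain ⟨i, r, hr, hi⟩ := hT
  have halg := isAlgebraic_KT hd hg i
  have key : ∀ A ∈ VSet k (zT k), i φ ∈ A := by
    intro A hA
    have hk : ∀ c : k, algebraMap k (KT k) c ∈ A := hA.1.1
    obtain ⟨y, hy, hyA⟩ := exists_centre_z (Y := Y) (A.comap (i : Y.K →+* KT k)) (fun c => by
      rw [ValuationSubring.mem_comap]
      have : (i : Y.K →+* KT k) (algebraMap k Y.K c) = algebraMap k (KT k) c := i.commutes c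
      rw [this]
      exact hk c)
    have hyA' : ∀ a ∈ Y.loc y, i a ∈ A := fun a ha => by
      have := hyA a ha
      rwa [ValuationSubring.mem_comap] at this
    obtain ⟨a, b, m', hab, hc⟩ := exists_cell_pt (f.isPt_app hy)
    have hE := etale_of_VSet hr hi hd hA hy hyA' a b m' hc
    have hinv := hR.etale (KT k) i halg A hk y hy hyA' a b m' hc hE
    have hram0 : ramEq hd KX KY g y ≠ 0 := by
      unfold ramEq
      exact mul_ne_zero hg0 (div_ne_zero (KY.eq_ne_zero y hy)
        ((map_ne_zero _).2 (KX.eq_ne_zero _ (f.isPt_app hy))))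
    have h1 : i φ = i (φ * ramEq hd KX KY g y ^ m) * ((i (ramEq hd KX KY g y))⁻¹) ^ m := by
      have h2 : i (ramEq hd KX KY g y) ≠ 0 := (map_ne_zero i).2 hram0
      rw [map_mul, map_pow, mul_assoc, ← mul_pow, mul_inv_cancel₀ h2, one_pow, mul_one]
    rw [h1]
    exact mul_mem (hyA' _ (hφ y hy)) (pow_mem hinv m)
  obtain ⟨c, hc⟩ := hconst (i φ) key
  refine ⟨c, i.injective ?_⟩
  change i φ = i (algebraMap k Y.K c)
  rw [hc, i.commutes]

/-- Kind (ii) is impossible: if `φ (KY / f^# KX)^m`, `ψ (KY / f^# KX)^m` are regular, then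
`φ / g^m` and `ψ / g^m` are constant, so `φ / ψ` is constant. -/
theorem not_iitakaPos (hconst : ExpConst k) (hT : EmbT k (fun I : Idx => f.coord I))
    (hd : f.Dominant) (hg : f.GenFinite) {KX : (XX k).CaDiv} {KY : Y.CaDiv}
    (hKX : KX.IsCanonical) (hKY : KY.IsCanonical) :
    ¬ Y.IitakaPos (fun y => KY.eq y / (XX k).ev f.coord (KX.eq (f.app y))) := by
  rintro ⟨m, hm, φ, ψ, hφ, hψ, hψ0, hne⟩
  obtain ⟨g, hg0, hR⟩ := exists_ram hd hg hKX hKY
  have key : ∀ χ : Y.K, (∀ y, Y.IsPt y →
      χ * (KY.eq y / (XX k).ev f.coord (KX.eq (f.app y))) ^ m ∈ Y.loc y) →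
      ∃ c : k, χ / g ^ m = algebraMap k Y.K c := by
    intro χ hχ
    apply const_of_section hconst hT hd hg hg0 hR (m := m)
    intro y hy
    have h1 : χ / g ^ m * ramEq hd KX KY g y ^ m =
        χ * (KY.eq y / (XX k).ev f.coord (KX.eq (f.app y))) ^ m := by
      unfold ramEq
      rw [mul_pow, ← mul_assoc, div_mul_cancel₀ _ (pow_ne_zero m hg0)]
      rfl
    rw [h1]
    exact hχ y hy
  obtain ⟨c, hc⟩ := key φ hφ
  obtain ⟨c', hc'⟩ := key ψ hψ
  have hgm : g ^ m ≠ 0 := pow_ne_zero m hg0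
  have hc0 : algebraMap k Y.K c' ≠ 0 := by
    rw [← hc']
    exact div_ne_zero hψ0 hgm
  apply hne (c / c')
  rw [map_div₀, ← hc, ← hc', div_div_div_cancel_right₀ hgm]

end MP9a7843
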