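import Pool.Agent.Lib.MP_9a7843_ag_V.K3B
import Pool.Agent.Lib.MP_9a7843_ag_V.K3C
import Pool.Agent.Lib.MP_9a7843_ag_V.Ram

/-!
# MP_9a7843_ag, block V, module Kind3: divisors on `Y` up to multiples of the ramification
divisor; kind (iii)
-/

noncomputable section

open MvPolynomial Classical

namespace MP9a7843

open Pool.Agent.MP9a7843 Pool.Agent.MP9a7843.ProjVar

universe u

variable {k : Type u} [Field k] [IsAlgClosed k] [CharZero k]

section

variable {Y : ProjVar k} {f : Hom Y (XX k)}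

/-- The decomposition of a Cartier divisor `D` on `Y`: `D = f^* B + div φ + E` with
`-m R ≤ E ≤ m R`. -/
theorem exists_decomp (hY : Y.Smooth) (hd : f.Dominant)
    (hcl : ClassLemma k (fun I : Idx => f.coord I)) {KX : (XX k).CaDiv} {KY : Y.CaDiv}
    {g₀ : Y.K} (hg0 : g₀ ≠ 0) (hR : RamProp hd KX KY g₀) (D : Y.CaDiv) :
    ∃ (B : (XX k).CaDiv) (φ : Y.K) (hφ : φ ≠ 0) (m : ℕ),
      (∀ y : Y.ι → k, Y.IsPt y → ramEq hd KX KY g₀ y ^ m *
        (D.add ((hd.pull B).add (CaDiv.prin φ hφ)).neg).eq y ∈ Y.loc y) ∧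
      (∀ y : Y.ι → k, Y.IsPt y → ramEq hd KX KY g₀ y ^ m *
        ((D.add ((hd.pull B).add (CaDiv.prin φ hφ)).neg).eq y)⁻¹ ∈ Y.loc y) := by
  obtain ⟨a, b, φ, hφ, h⟩ := exists_abDiv hcl hd D
  refine ⟨abDiv k a b, φ, hφ, ?_⟩
  set E : Y.CaDiv := D.add ((hd.pull (abDiv k a b)).add (CaDiv.prin φ hφ)).neg with hE
  set R : Y.CaDiv := (CaDiv.prin g₀ hg0).add (KY.add (hd.pull KX).neg) with hRdef
  have hr : ∀ y, ramEq hd KX KY g₀ y = R.eq y := ramEq_caDiv hd KX KY hg0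
  have loc : ∀ y : Y.ι → k, Y.IsPt y → ∃ (m d : ℕ) (H : MvPolynomial Y.ι k),
      H.IsHomogeneous d ∧ aeval y H ≠ 0 ∧ ∀ y' : Y.ι → k, Y.IsPt y' → aeval y' H ≠ 0 →
        R.eq y' ^ m * E.eq y' ∈ Y.loc y' ∧ R.eq y' ^ m * (E.eq y')⁻¹ ∈ Y.loc y' := by
    intro y hy
    obtain ⟨m1, hm1⟩ := exists_pow_mem hY hd hg0 hR hy (g := E.eq y)
      fun A hA hyA => (h A hA y hy hyA).1
    obtain ⟨m2, hm2⟩ := exists_pow_mem hY hd hg0 hR hy (g := (E.eq y)⁻¹)
      fun A hA hyA => (h A hA y hy hyA).2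
    rw [hr] at hm1 hm2
    have hry : R.eq y ∈ Y.loc y := by
      rw [← hr]
      exact hR.mem y hy
    have hm1' : R.eq y ^ (m1 + m2) * E.eq y ∈ Y.loc y := by
      rw [add_comm, pow_add, mul_assoc]
      exact mul_mem (pow_mem hry _) hm1
    have hm2' : R.eq y ^ (m1 + m2) * (E.eq y)⁻¹ ∈ Y.loc y := by
      rw [pow_add, mul_assoc]
      exact mul_mem (pow_mem hry _) hm2
    obtain ⟨d1, H1, hH1, h10, h11⟩ := E.exists_nhd hy
    obtain ⟨d2, H2, hH2, h20, h21⟩ := R.exists_nhd hy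
    obtain ⟨d3, H3, hH3, h30, h31⟩ := exists_nhd hy hm1'
    obtain ⟨d4, H4, hH4, h40, h41⟩ := exists_nhd hy hm2'
    refine ⟨m1 + m2, d1 + d2 + d3 + d4, H1 * H2 * H3 * H4,
      ((hH1.mul hH2).mul hH3).mul hH4, ?_, ?_⟩
    · rw [map_mul, map_mul, map_mul]
      exact mul_ne_zero (mul_ne_zero (mul_ne_zero h10 h20) h30) h40
    · intro y' hy' hn
      rw [map_mul, map_mul, map_mul] at hn
      have hn4 := right_ne_zero_of_mul hn
      have hn3 := right_ne_zero_of_mul (left_ne_zero_of_mul hn)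
      have hn2 := right_ne_zero_of_mul (left_ne_zero_of_mul (left_ne_zero_of_mul hn))
      have hn1 := left_ne_zero_of_mul (left_ne_zero_of_mul (left_ne_zero_of_mul hn))
      have u1 := h11 y' hy' hn1
      have u2 := h21 y' hy' hn2
      have e0 := E.eq_ne_zero y hy
      have r0 := R.eq_ne_zero y hy
      have e0' := E.eq_ne_zero y' hy'
      constructor
      · have e1 : R.eq y' ^ (m1 + m2) * E.eq y' = (R.eq y' / R.eq y) ^ (m1 + m2) *
            (E.eq y' / E.eq y) * (R.eq y ^ (m1 + m2) * E.eq y) := by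
          rw [div_pow]
          have := pow_ne_zero (m1 + m2) r0
          field_simp
        rw [e1]
        exact mul_mem (mul_mem (pow_mem u2.1 _) u1.1) (h31 k y' hn3)
      · have e1 : R.eq y' ^ (m1 + m2) * (E.eq y')⁻¹ = (R.eq y' / R.eq y) ^ (m1 + m2) *
            (E.eq y' / E.eq y)⁻¹ * (R.eq y ^ (m1 + m2) * (E.eq y)⁻¹) := by
          rw [div_pow]
          have := pow_ne_zero (m1 + m2) r0
          field_simp
        rw [e1]
        exact mul_mem (mul_mem (pow_mem u2.1 _) u1.2) (h41 k y' hn4)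
  choose! m d H hH h0 h1 using loc
  obtain ⟨s, hs, hcov⟩ := exists_finite_cover H h0
  refine ⟨∑ y ∈ s, m y, ?_⟩
  have hle : ∀ y ∈ s, ∀ y' : Y.ι → k, Y.IsPt y' → ∀ g : Y.K, R.eq y' ^ m y * g ∈ Y.loc y' →
      R.eq y' ^ (∑ y ∈ s, m y) * g ∈ Y.loc y' := by
    intro y hys y' hy' g hg
    have h2 : m y ≤ ∑ y ∈ s, m y := Finset.single_le_sum (f := m) (fun _ _ => Nat.zero_le _) hys
    obtain ⟨q, hq⟩ := Nat.exists_eq_add_of_le h2
    rw [hq, add_comm, pow_add, mul_assoc]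
    refine mul_mem (pow_mem ?_ _) hg
    rw [← hr]
    exact hR.mem y' hy'
  constructor
  · intro y' hy'
    obtain ⟨y, hys, hn⟩ := hcov y' hy'
    rw [hr]
    exact hle y hys y' hy' _ (h1 y (hs y hys) y' hy' hn).1
  · intro y' hy'
    obtain ⟨y, hys, hn⟩ := hcov y' hy'
    rw [hr]
    exact hle y hys y' hy' _ (h1 y (hs y hys) y' hy' hn).2

/-- Kind (iii) is impossible: `f_*` is injective on the face.

Proof.  Let `R = div g₀ + K_Y - f^* K_X` (`ramEq_caDiv`).  `deg R = K_Y - f^* K_X` on every curve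
(`deg_add`, `deg_neg`, `deg_prin`, `deg_pull`), so `γ.cls R = 0` for `γ` in the face.  For every
Cartier divisor `D` take the decomposition; `γ.cls E = 0` (`Nef1_sandwich`), so
`γ.cls D = γ.cls (f^* B) = (f_* γ)(B)` (`N1_add`, `N1_neg`, `N1_prin`, `pushCls_eq`).  The same for
`γ'`, and `f_* γ = f_* γ'`. -/
theorem cls_eq_of_face (hY : Y.Smooth) (hd : f.Dominant)
    (hcl : ClassLemma k (fun I : Idx => f.coord I)) {KX : (XX k).CaDiv} {KY : Y.CaDiv}
    {g₀ : Y.K} (hg0 : g₀ ≠ 0) (hR : RamProp hd KX KY g₀) {γ γ' : Y.Cycle}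
    (h1 : InFace (-f.pullCls KX + KY.cls) γ) (h2 : InFace (-f.pullCls KX + KY.cls) γ')
    (h3 : f.pushCls γ = f.pushCls γ') : γ.cls = γ'.cls := by
  have key : ∀ γ : Y.Cycle, InFace (-f.pullCls KX + KY.cls) γ → ∀ D : Y.CaDiv,
      ∀ (B : (XX k).CaDiv) (φ : Y.K) (hφ : φ ≠ 0) (m : ℕ),
      (∀ y : Y.ι → k, Y.IsPt y → ramEq hd KX KY g₀ y ^ m *
        (D.add ((hd.pull B).add (CaDiv.prin φ hφ)).neg).eq y ∈ Y.loc y) →
      (∀ y : Y.ι → k, Y.IsPt y → ramEq hd KX KY g₀ y ^ m *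
        ((D.add ((hd.pull B).add (CaDiv.prin φ hφ)).neg).eq y)⁻¹ ∈ Y.loc y) →
      γ.cls D = f.pushCls γ B := by
    intro γ hγ D B φ hφ m e1 e2
    have hN := hγ.1.1
    have hr : ∀ y, ramEq hd KX KY g₀ y =
        ((CaDiv.prin g₀ hg0).add (KY.add (hd.pull KX).neg)).eq y := ramEq_caDiv hd KX KY hg0
    have h4 : γ.cls ((CaDiv.prin g₀ hg0).add (KY.add (hd.pull KX).neg)) = 0 := by
      rw [N1_add hN, N1_prin hN, N1_add hN, N1_neg hN, zero_add]
      have h5 := hγ.2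
      rw [pullCls_eq hd] at h5
      have h6 : (γ.sum fun C r => r * (-(hd.pull KX).cls + KY.cls) C) =
          γ.cls KY + -γ.cls (hd.pull KX) := by
        rw [← cls_cls, ← cls_cls]
        simp only [Finsupp.sum]
        rw [← Finset.sum_neg_distrib, ← Finset.sum_add_distrib]
        refine Finset.sum_congr rfl fun C _ => ?_
        rw [Pi.add_apply, Pi.neg_apply]
        ring
      rw [← h6]
      exact h5
    have h7 := Nef1_sandwich hγ.1 (R := (CaDiv.prin g₀ hg0).add (KY.add (hd.pull KX).neg))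
      (D := D.add ((hd.pull B).add (CaDiv.prin φ hφ)).neg) m
      (fun y hy => by rw [← hr]; exact e1 y hy) (fun y hy => by rw [← hr]; exact e2 y hy) h4
    rw [N1_add hN, N1_neg hN, N1_add hN, N1_prin hN, add_zero] at h7
    rw [pushCls_eq hd]
    linarith
  funext D
  obtain ⟨B, φ, hφ, m, e1, e2⟩ := exists_decomp hY hd hcl hg0 hR D
  rw [key γ h1 D B φ hφ m e1 e2, key γ' h2 D B φ hφ m e1 e2, h3]

end

end MP9a7843
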