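import Pool.Agent.Lib.MP_9a7843_ag_D.Krull

/-!
# MP_9a7843_ag, block V, module KrullV: functions with poles along one function only
-/

noncomputable section

namespace MP9a7843

variable {k : Type*} [Field k] {K : Type*} [Field K] [Algebra k K]

/-- The ring `R[1/r]` inside `K`. -/
def awayRing (R : Subalgebra k K) (r : K) (hr : r ∈ R) : Subalgebra k K where
  carrier := {x | ∃ (m : ℕ), r ^ m * x ∈ R}
  mul_mem' := by
    rintro a b ⟨m, hm⟩ ⟨n, hn⟩
    refine ⟨m + n, ?_⟩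
    have h : r ^ (m + n) * (a * b) = r ^ m * a * (r ^ n * b) := by ring
    rw [h]
    exact mul_mem hm hn
  add_mem' := by
    rintro a b ⟨m, hm⟩ ⟨n, hn⟩
    refine ⟨m + n, ?_⟩
    have h : r ^ (m + n) * (a + b) = r ^ n * (r ^ m * a) + r ^ m * (r ^ n * b) := by ring
    rw [h]
    exact add_mem (mul_mem (pow_mem hr n) hm) (mul_mem (pow_mem hr m) hn)
  algebraMap_mem' := by
    intro c
    refine ⟨0, ?_⟩
    rw [pow_zero, one_mul]
    exact R.algebraMap_mem c

theorem mem_awayRing {R : Subalgebra k K} {r : K} (hr : r ∈ R) {x : K} :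
    x ∈ awayRing R r hr ↔ ∃ m : ℕ, r ^ m * x ∈ R := Iff.rfl

theorem le_awayRing {R : Subalgebra k K} {r : K} (hr : r ∈ R) : R ≤ awayRing R r hr := by
  intro x hx
  refine ⟨0, ?_⟩
  rw [pow_zero, one_mul]
  exact hx

private theorem inv_mem_awayRing {R : Subalgebra k K} {r : K} (hr : r ∈ R) (hr0 : r ≠ 0) :
    r⁻¹ ∈ awayRing R r hr := by
  refine ⟨1, ?_⟩
  rw [pow_one, mul_inv_cancel₀ hr0]
  exact one_mem R

/-- the inclusion of `R` into `R[1/r]` -/
@[instance_reducible]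
private def awayAlg (R : Subalgebra k K) (r : K) (hr : r ∈ R) :
    Algebra R (awayRing R r hr) :=
  (Subalgebra.inclusion (le_awayRing hr)).toRingHom.toAlgebra

private theorem away_loc (R : Subalgebra k K) {r : K} (hr : r ∈ R) (hr0 : r ≠ 0) :
    letI := awayAlg R r hr
    IsLocalization (Submonoid.powers (⟨r, hr⟩ : R)) (awayRing R r hr) := by
  let _ := awayAlg R r hr
  have hcoe : ∀ x : R, ((algebraMap R (awayRing R r hr) x : awayRing R r hr) : K) = x :=
    fun x => rfl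
  refine (isLocalization_iff_isLocalizationMap _ _).2 ⟨?_, ?_, ?_⟩
  · rintro ⟨_, n, rfl⟩
    refine IsUnit.of_mul_eq_one ⟨(r⁻¹) ^ n, pow_mem (inv_mem_awayRing hr hr0) n⟩
      (Subtype.ext ?_)
    rw [MulMemClass.coe_mul, hcoe]
    change ((⟨r, hr⟩ : R) ^ n : R).1 * (r⁻¹) ^ n = 1
    rw [SubmonoidClass.coe_pow, ← mul_pow, mul_inv_cancel₀ hr0, one_pow]
  · rintro ⟨x, m, hm⟩
    refine ⟨(⟨r ^ m * x, hm⟩, ⟨⟨r, hr⟩ ^ m, m, rfl⟩), Subtype.ext ?_⟩
    rw [MulMemClass.coe_mul, hcoe, hcoe]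
    change x * ((⟨r, hr⟩ : R) ^ m : R).1 = r ^ m * x
    rw [SubmonoidClass.coe_pow, mul_comm]
  · intro x y h
    have h1 := congrArg (fun z : awayRing R r hr => (z : K)) h
    simp only [hcoe] at h1
    exact ⟨1, by rw [Subtype.ext h1]⟩

/-- It is a localisation of `R` (`IsLocalization.isNoetherianRing`), or directly: an ideal of
`R[1/r]` is generated by its intersection with `R`. -/
theorem isNoetherianRing_awayRing {R : Subalgebra k K} [IsNoetherianRing R] {r : K} (hr : r ∈ R)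
    (hr0 : r ≠ 0) : IsNoetherianRing (awayRing R r hr) := by
  let _ := awayAlg R r hr
  have := away_loc R hr hr0
  exact IsLocalization.isNoetherianRing (Submonoid.powers (⟨r, hr⟩ : R)) _ inferInstance

private theorem fr_of (R : Subalgebra k K)
    (hfr : ∀ x : K, ∃ a ∈ R, ∃ s ∈ R, s ≠ 0 ∧ x = a / s) : IsFractionRing R K := by
  refine IsFractionRing.of_field R K fun z => ?_
  obtain ⟨a, ha, s, hs, -, h⟩ := hfr z
  exact ⟨⟨a, ha⟩, ⟨s, hs⟩, h⟩

private theorem away_fr {R : Subalgebra k K}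
    (hfr : ∀ x : K, ∃ a ∈ R, ∃ s ∈ R, s ≠ 0 ∧ x = a / s) {r : K} (hr : r ∈ R) :
    ∀ x : K, ∃ a ∈ awayRing R r hr, ∃ s ∈ awayRing R r hr, s ≠ 0 ∧ x = a / s := by
  intro x
  obtain ⟨a, ha, s, hs, hs0, h⟩ := hfr x
  exact ⟨a, le_awayRing hr ha, s, le_awayRing hr hs, hs0, h⟩

/-- If `x` in the field of fractions is integral over `R[1/r]`, multiply by a power of `r`
(a common denominator of the coefficients): `r^n x` is integral over `R`. -/
theorem isIntegrallyClosed_awayRing {R : Subalgebra k K} [IsIntegrallyClosed R]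
    (hfr : ∀ x : K, ∃ a ∈ R, ∃ s ∈ R, s ≠ 0 ∧ x = a / s) {r : K} (hr : r ∈ R) (hr0 : r ≠ 0) :
    IsIntegrallyClosed (awayRing R r hr) := by
  let _ := awayAlg R r hr
  have hl := away_loc R hr hr0
  have hf := fr_of R hfr
  have hf2 := fr_of (awayRing R r hr) (away_fr hfr hr)
  have ht : IsScalarTower R (awayRing R r hr) K := IsScalarTower.of_algebraMap_eq fun x => rfl
  rw [isIntegrallyClosed_iff K]
  intro x hx
  obtain ⟨⟨_, n, rfl⟩, hn⟩ :=
    IsIntegral.exists_multiple_integral_of_isLocalization (Submonoid.powers (⟨r, hr⟩ : R)) x hx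
  obtain ⟨y, hy⟩ := (isIntegrallyClosed_iff K).1 ‹IsIntegrallyClosed R› hn
  refine ⟨⟨x, n, ?_⟩, rfl⟩
  have h1 : (y : K) = r ^ n * x := hy
  rw [← h1]
  exact y.2

/-- If no `r^m g` is in `R`, there is a discrete valuation ring `A` which is a localisation of `R`,
in which `r` is a unit and which does not contain `g`.

Proof.  `exists_dvr_not_mem` for `awayRing R r hr`.  An element of `A` is `x / y` with `x, y` in
`R[1/r]`, `y⁻¹ ∈ A`; multiply numerator and denominator by a power of `r` (a unit of `A`). -/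
theorem exists_dvr_of_pow (R : Subalgebra k K) [IsNoetherianRing R] [IsIntegrallyClosed R]
    (hfr : ∀ x : K, ∃ a ∈ R, ∃ s ∈ R, s ≠ 0 ∧ x = a / s) {r g : K} (hr : r ∈ R) (hr0 : r ≠ 0)
    (hg : ∀ m : ℕ, r ^ m * g ∉ R) :
    ∃ A : ValuationSubring K, IsDVRof k A ∧ (∀ x ∈ R, x ∈ A) ∧ r⁻¹ ∈ A ∧ g ∉ A ∧
      ∀ a ∈ A, ∃ b ∈ R, ∃ d ∈ R, d⁻¹ ∈ A ∧ a = b / d := by
  have h1 := isNoetherianRing_awayRing hr hr0
  have h2 := isIntegrallyClosed_awayRing hfr hr hr0
  have h3 : g ∉ awayRing R r hr := fun ⟨m, hm⟩ => hg m hm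
  obtain ⟨A, hA, hRA, hgA, hloc⟩ :=
    exists_dvr_not_mem (awayRing R r hr) (away_fr hfr hr) h3
  have hrA : r⁻¹ ∈ A := hRA _ (inv_mem_awayRing hr hr0)
  refine ⟨A, hA, fun x hx => hRA x (le_awayRing hr hx), hrA, hgA, fun a ha => ?_⟩
  obtain ⟨x, ⟨m, hm⟩, y, ⟨n, hn⟩, hy0, hyA, h⟩ := hloc a ha
  refine ⟨r ^ (m + n) * x, ?_, r ^ (m + n) * y, ?_, ?_, ?_⟩
  · have h4 : r ^ (m + n) * x = r ^ n * (r ^ m * x) := by ring
    rw [h4]
    exact mul_mem (pow_mem hr n) hm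
  · have h4 : r ^ (m + n) * y = r ^ m * (r ^ n * y) := by ring
    rw [h4]
    exact mul_mem (pow_mem hr m) hn
  · rw [mul_inv, ← inv_pow]
    exact mul_mem (pow_mem hrA _) hyA
  · rw [h, mul_div_mul_left _ _ (pow_ne_zero _ hr0)]

end MP9a7843
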