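import Pool.Agent.Lib.MP_9a7843_ag_V.Kind1
import Pool.Agent.Lib.MP_9a7843_ag_V.Kind2
import Pool.Agent.Lib.MP_9a7843_ag_V.Kind3

/-!
# MP_9a7843_ag, block V, module Main: no breaking maps with function field inside `K_T`
-/

noncomputable section

open MvPolynomial Classical

namespace MP9a7843

open Pool.Agent.MP9a7843 Pool.Agent.MP9a7843.ProjVar

universe u

variable {k : Type u} [Field k] [IsAlgClosed k] [CharZero k]

/-- **Export of block V.** -/
theorem expNotBreaking (hcl : ExpClass k) (hconst : ExpConst k) (hdich : ExpDichotomy k)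
    (ha : ∀ KX : (XX k).CaDiv, KX.IsCanonical → 1 ≤ (XX k).aInv KX.cls (-KX.cls)) :
    ExpNotBreaking k := by
  intro Y hY f hd hg hT hbr
  obtain ⟨KX, KY, hKX, hKY, -, h⟩ := hbr
  obtain ⟨g, hg0, hR⟩ := exists_ram hd hg hKX hKY
  rcases h with h | ⟨-, -, h | ⟨γ, γ', h1, h2, h3, h4⟩⟩
  · exact absurd h (not_lt.2 ((aInv_pull_le hd hg hKX hKY).trans (ha KX hKX)))
  · exact not_iitakaPos hconst hT hd hg hKX hKY h
  · have hz : ∃ I : Idx, f.coord I ≠ 0 := f.isPt.1
    exact h4 (cls_eq_of_face hY hd (hcl Y.K _ (hdich Y.K _ hz hT hg)) hg0 hR h1 h2 h3)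

end MP9a7843
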