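import Pool.Agent.Lib.MP_9a7843_ag_V.RamB

/-!
# MP_9a7843_ag, block V, module RamC: the ramification is trivial along etale valuation rings
-/

noncomputable section

open MvPolynomial Classical KaehlerDifferential

open scoped KaehlerDifferential

namespace MP9a7843

open Pool.Agent.MP9a7843 Pool.Agent.MP9a7843.ProjVar

universe u

private theorem RamC_alg {k K1 K2 L : Type u} [Field k] [Field K1] [Algebra k K1] [Field K2]
    [Algebra k K2] [Field L] [Algebra k L] (e : K1 →ₐ[k] K2) (i : K2 →ₐ[k] L)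
    (he : Algebra.IsAlgebraic e.fieldRange K2) (hi : Algebra.IsAlgebraic i.fieldRange L) :
    Algebra.IsAlgebraic (i.comp e).fieldRange L := by
  let _ : Algebra K1 K2 := e.toRingHom.toAlgebra
  let _ : Algebra K2 L := i.toRingHom.toAlgebra
  let _ : Algebra K1 L := (i.comp e).toRingHom.toAlgebra
  have : IsScalarTower K1 K2 L := IsScalarTower.of_algebraMap_eq fun _ => rfl
  have h1 : Algebra.IsAlgebraic K1 K2 :=
    Algebra.IsAlgebraic.of_ringHom_of_comp_eq (S := e.fieldRange) (B := K2)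
      (e.toRingHom.codRestrict e.fieldRange fun x => ⟨x, rfl⟩) (RingHom.id K2)
      (by rintro ⟨_, x, rfl⟩; exact ⟨x, rfl⟩) Function.injective_id rfl
  have h2 : Algebra.IsAlgebraic K2 L :=
    Algebra.IsAlgebraic.of_ringHom_of_comp_eq (S := i.fieldRange) (B := L)
      (i.toRingHom.codRestrict i.fieldRange fun x => ⟨x, rfl⟩) (RingHom.id L)
      (by rintro ⟨_, x, rfl⟩; exact ⟨x, rfl⟩) Function.injective_id rfl
  have h3 : Algebra.IsAlgebraic K1 L := Algebra.IsAlgebraic.trans K1 K2 L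
  exact Algebra.IsAlgebraic.ringHom_of_comp_eq (R := K1) (A := L)
    ((i.comp e).toRingHom.codRestrict (i.comp e).fieldRange fun x => ⟨x, rfl⟩) (RingHom.id L)
    (fun x y h => (i.comp e).injective (congrArg Subtype.val h)) Function.surjective_id rfl

section

variable {k : Type u} [Field k] [IsAlgClosed k] [CharZero k] {Y : ProjVar k} {f : Hom Y (XX k)}

/-- Etale valuation rings.  Let `BL` be the basis `d i(f^# x0)` of `Ω[L/k]` and `B'` the basis
`d i(f^# x^c) ∘ e` (both by `exists_isDB_map` for `i ∘ f^#`).  `sY / KY(y) ∈ jacS BY y`, so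
`i (sY / KY(y))` is a sum of elements `i(r) * i(jac BY a) = i(r) * jac BL (i ∘ a)`, `r`, `a_s` in
`loc y`, and `jac BL (i ∘ a) = jac BL (i f^# x^c ∘ e) * jac B' (i ∘ a)` (`jac_change`), with
`jac B' (i ∘ a) ∈ A` (`jac_mem`).  So `i (sY / KY(y)) = t * jac BL (i f^# x^c ∘ e)`, `t ∈ A`, and
`i f^# (sX / KX(p)) = i f^#(w) * jac BL (i f^# x^c ∘ e)`, with `i f^#(w)⁻¹ ∈ A`. -/
theorem ram_etale {hd : f.Dominant} (hg : f.GenFinite) {KX : (XX k).CaDiv} {KY : Y.CaDiv}
    (D : RamData hd KX KY)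
    (L : Type u) [Field L] [Algebra k L] (i : Y.K →ₐ[k] L) (hi : Algebra.IsAlgebraic i.fieldRange L)
    (A : ValuationSubring L) (hA : ∀ r : k, algebraMap k L r ∈ A) (y : Y.ι → k) (hy : Y.IsPt y)
    (hyA : ∀ a ∈ Y.loc y, i a ∈ A) (a b : Fin 10) (m : Fin 4)
    (hc : f.app y (cellIdx a b m) ≠ 0)
    (hE : EtaleAt k A (cellCoord (fun I : Idx => i (f.coord I)) a b m)) :
    (i (ramEq hd KX KY (hd.emb D.sX / D.sY) y))⁻¹ ∈ A := by
  have hp : (XX k).IsPt (f.app y) := f.isPt_app hy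
  have hab : a ≠ b := ne_of_cell (rel_of_isPt hp) hc
  obtain ⟨e⟩ := exists_cellEquiv hab m
  obtain ⟨hj0, w, hw0, hwu, hw⟩ := exists_unit_jac D hp hc e
  have hj := RamC_alg hd.emb i (isAlgebraic_emb hd hg) hi
  have hgen := isGenX_XX (k := k)
  have h01 : (0 : Fin 10) ≠ 1 := by decide
  obtain ⟨BL, hBL⟩ := exists_isDB_map (cellCoord (XX k).z 0 1 0) (hgen.indep_cell h01 0)
    (hgen.gen_cell h01 0) (i.comp hd.emb) hj
  obtain ⟨B', hB'⟩ := exists_isDB_map (cellCoord (XX k).z a b m ∘ e)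
    ((hgen.indep_cell hab m).comp e e.injective)
    (by rw [e.surjective.range_comp]; exact hgen.gen_cell hab m) (i.comp hd.emb) hj
  have hcoord : ∀ s, (i.comp hd.emb) (cellCoord (XX k).z a b m s) =
      cellCoord (fun I : Idx => i (f.coord I)) a b m s := by
    intro s
    change i (hd.emb (cellCoord (XX k).z a b m s)) = _
    rw [emb_cellCoord]
    exact (cellCoord_map (i : Y.K →+* L) (fun I : Idx => f.coord I) a b m s).symm
  have hE' : EtaleAt k A ((i.comp hd.emb) ∘ (cellCoord (XX k).z a b m ∘ e)) := by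
    refine ⟨fun s => ?_, fun δ hδ => hE.2 δ fun s => ?_⟩
    · change (i.comp hd.emb) (cellCoord (XX k).z a b m (e s)) ∈ A
      rw [hcoord]
      exact hE.1 _
    · have h1 := hδ (e.symm s)
      have h2 : ((i.comp hd.emb) ∘ (cellCoord (XX k).z a b m ∘ e)) (e.symm s) =
          cellCoord (fun I : Idx => i (f.coord I)) a b m s := by
        rw [← hcoord s]
        change (i.comp hd.emb) (cellCoord (XX k).z a b m (e (e.symm s))) = _
        rw [e.apply_symm_apply]
      rwa [h2] at h1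
  have hJ : jac BL ((i.comp hd.emb) ∘ (cellCoord (XX k).z a b m ∘ e)) =
      (i.comp hd.emb) (jac D.BX (cellCoord (XX k).z a b m ∘ e)) :=
    jac_map (i.comp hd.emb) D.hX hBL _
  have key : ∀ u ∈ jacS D.BY y, ∃ t ∈ A, i u =
      t * jac BL ((i.comp hd.emb) ∘ (cellCoord (XX k).z a b m ∘ e)) := by
    intro u hu
    refine Submodule.span_induction ?_ ?_ ?_ ?_ hu
    · rintro _ ⟨c, rfl⟩
      refine ⟨jac B' (i ∘ fun s => (c s : Y.K)), jac_mem hB' hE' fun s => hyA _ (c s).2, ?_⟩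
      change i (jac D.BY fun s => (c s : Y.K)) = _
      rw [← jac_map i D.hY hBL, jac_change BL B' hB', mul_comm]
    · exact ⟨0, zero_mem _, by rw [map_zero, zero_mul]⟩
    · rintro u v _ _ ⟨t, ht, h1⟩ ⟨t', ht', h2⟩
      exact ⟨t + t', add_mem ht ht', by rw [map_add, h1, h2, add_mul]⟩
    · rintro r u _ ⟨t, ht, h1⟩
      refine ⟨i (r : Y.K) * t, mul_mem (hyA _ r.2) ht, ?_⟩
      have h2 : r • u = (r : Y.K) * u := rfl
      rw [h2, map_mul, h1, mul_assoc]
  have hsY : D.sY / KY.eq y ∈ jacS D.BY y := by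
    rw [D.jY y hy]
    exact Submodule.mem_span_singleton_self _
  obtain ⟨t, ht, h1⟩ := key _ hsY
  have hJ0 : jac BL ((i.comp hd.emb) ∘ (cellCoord (XX k).z a b m ∘ e)) ≠ 0 := by
    rw [hJ]
    exact (map_ne_zero _).2 hj0
  have h2 : i (hd.emb (D.sX / KX.eq (f.app y))) = i (hd.emb w) *
      jac BL ((i.comp hd.emb) ∘ (cellCoord (XX k).z a b m ∘ e)) := by
    rw [hJ, hw, map_mul, map_mul]
    rfl
  have hw1 : (i (hd.emb w))⁻¹ ∈ A := by
    rw [← map_inv₀, ← map_inv₀]
    exact hyA _ (f.ev_coord_mem hy hwu.2).2.1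
  rw [ramEq_eq D hy, map_div₀, h1, h2, inv_div]
  have h3 : t * jac BL ((i.comp hd.emb) ∘ (cellCoord (XX k).z a b m ∘ e)) /
      (i (hd.emb w) * jac BL ((i.comp hd.emb) ∘ (cellCoord (XX k).z a b m ∘ e))) =
      t * (i (hd.emb w))⁻¹ := by
    rw [mul_div_mul_right _ _ hJ0, div_eq_mul_inv]
  rw [h3]
  exact mul_mem ht hw1

end

end MP9a7843
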